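import Mathlib

/-!
# Lattice homomorphisms from the dual of the partition lattice of four points

A criterion for a family of six elements `C i j` of a complete lattice to be the images of the six
coatoms of the dual of the partition lattice of `{0, 1, 2, 3}` under a lattice homomorphism.
-/

set_option autoImplicit false

namespace Pool.Agent.U291.Whit

variable {M : Type*} [CompleteLattice M]

/-- The map from partitions to `M`: the meet of all `C i j` with `i` and `j` in one block. -/
def F (C : Fin 4 → Fin 4 → M) (π : Setoid (Fin 4)) : M :=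
  ⨅ (i : Fin 4) (j : Fin 4) (_ : π i j), C i j

theorem le_F {C : Fin 4 → Fin 4 → M} {π : Setoid (Fin 4)} {X : M} :
    X ≤ F C π ↔ ∀ i j, π i j → X ≤ C i j := by
  simp only [F, le_iInf_iff]

theorem F_le {C : Fin 4 → Fin 4 → M} {π : Setoid (Fin 4)} {i j : Fin 4} (h : π i j) :
    F C π ≤ C i j := le_F.1 le_rfl i j h

theorem F_anti {C : Fin 4 → Fin 4 → M} {π σ : Setoid (Fin 4)} (h : π ≤ σ) : F C σ ≤ F C π :=
  le_F.2 fun _ _ hij => F_le (h hij)

/-- The conditions on the elements `C i j`. -/
structure Hyp (T : M) (C : Fin 4 → Fin 4 → M) : Prop where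
  diag : ∀ i, C i i = T
  symm : ∀ i j, C i j = C j i
  le : ∀ i j, C i j ≤ T
  tri : ∀ i j k, C i j ⊓ C j k ≤ C i k

variable {T : M} {C : Fin 4 → Fin 4 → M}

theorem F_sup (h : Hyp T C) (π σ : Setoid (Fin 4)) : F C (π ⊔ σ) = F C π ⊓ F C σ := by
  apply le_antisymm
  · exact le_inf (F_anti le_sup_left) (F_anti le_sup_right)
  · have h0 : F C π ≤ T := by
      have := F_le (C := C) (π := π) (i := 0) (j := 0) (π.refl' 0)
      rwa [h.diag] at this
    let ρ : Setoid (Fin 4) :=
      { r := fun i j => F C π ⊓ F C σ ≤ C i j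
        iseqv :=
          { refl := fun i => by rw [h.diag]; exact inf_le_left.trans h0
            symm := fun {i j} hij => by rw [h.symm]; exact hij
            trans := fun {i j k} h1 h2 => (le_inf h1 h2).trans (h.tri i j k) } }
    have h1 : π ≤ ρ := fun i j hij => (inf_le_left.trans (F_le hij) : F C π ⊓ F C σ ≤ C i j)
    have h2 : σ ≤ ρ := fun i j hij => (inf_le_right.trans (F_le hij) : F C π ⊓ F C σ ≤ C i j)
    exact le_F.2 fun i j hij => (sup_le h1 h2 : π ⊔ σ ≤ ρ) hij

/-- six booleans `ij` (is `i` equivalent to `j`) come from an equivalence relation -/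
def valid (a b c d e f : Bool) : Bool :=
  (!(a && b) || d) && (!(a && d) || b) && (!(b && d) || a) &&
  (!(a && c) || e) && (!(a && e) || c) && (!(c && e) || a) &&
  (!(b && c) || f) && (!(b && f) || c) && (!(c && f) || b) &&
  (!(d && e) || f) && (!(d && f) || e) && (!(e && f) || d)

/-- closed sets of atoms -/
def closed (p0 p1 p2 p3 q0 q1 q2 : Bool) : Bool :=
  (!(p2 && p3) || q0) && (!(p2 && q0) || p3) && (!(p3 && q0) || p2) &&
  (!(p1 && p3) || q1) && (!(p1 && q1) || p3) && (!(p3 && q1) || p1) &&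
  (!(p1 && p2) || q2) && (!(p1 && q2) || p2) && (!(p2 && q2) || p1) &&
  (!(p0 && p3) || q2) && (!(p0 && q2) || p3) && (!(p3 && q2) || p0) &&
  (!(p0 && p2) || q1) && (!(p0 && q1) || p2) && (!(p2 && q1) || p0) &&
  (!(p0 && p1) || q0) && (!(p0 && q0) || p1) && (!(p1 && q0) || p0) &&
  (!(q0 && q1) || (p0 && p1 && p2 && p3 && q2)) &&
  (!(q0 && q2) || (p0 && p1 && p2 && p3 && q1)) &&
  (!(q1 && q2) || (p0 && p1 && p2 && p3 && q0))

/-- all the atoms below the element with code `a … f` belong to the set -/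
def sub (a b c d e f p0 p1 p2 p3 q0 q1 q2 : Bool) : Bool :=
  (a || b || c || p0) && (a || d || e || p1) && (b || d || f || p2) && (c || e || f || p3) &&
  (b || c || d || e || q0) && (a || c || d || f || q1) && (a || b || e || f || q2)

theorem chk : ∀ a b c d e f : Bool, valid a b c d e f = true →
    ∀ a' b' c' d' e' f' : Bool, valid a' b' c' d' e' f' = true →
    ∀ p0 p1 p2 p3 q0 q1 q2 : Bool, closed p0 p1 p2 p3 q0 q1 q2 = true →
      sub a b c d e f p0 p1 p2 p3 q0 q1 q2 = true →
      sub a' b' c' d' e' f' p0 p1 p2 p3 q0 q1 q2 = true →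
      sub (a && a') (b && b') (c && c') (d && d') (e && e') (f && f') p0 p1 p2 p3 q0 q1 q2 = true := by
  decide +kernel

end Pool.Agent.U291.Whit
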