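import Pool.Agent.U291.Whit.Joins

/-!
# The group has at most 660 elements
-/

set_option autoImplicit false

namespace Pool.Agent.U291.Whit

def r0 : P :=
  ⟨![5, 9, 1, 7, 3, 11, 8, 4, 10, 2, 6, 0], ![11, 2, 9, 4, 7, 0, 10, 3, 6, 1, 8, 5], by decide, by decide⟩

def r1 : P :=
  ⟨![2, 5, 10, 9, 6, 11, 7, 4, 3, 8, 0, 1], ![10, 11, 0, 8, 7, 1, 4, 6, 9, 3, 2, 5], by decide, by decide⟩

def r2 : P :=
  ⟨![1, 4, 8, 7, 0, 3, 9, 5, 11, 10, 6, 2], ![4, 0, 11, 5, 1, 7, 10, 3, 2, 6, 9, 8], by decide, by decide⟩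

def r3 : P :=
  ⟨![6, 4, 8, 5, 7, 11, 10, 1, 9, 2, 0, 3], ![10, 7, 9, 11, 1, 3, 0, 4, 2, 8, 6, 5], by decide, by decide⟩

def r4 : P :=
  ⟨![0, 1, 6, 2, 7, 8, 10, 5, 11, 3, 9, 4], ![0, 1, 3, 9, 11, 7, 2, 4, 5, 10, 6, 8], by decide, by decide⟩

def r5 : P :=
  ⟨![0, 4, 2, 8, 6, 10, 7, 9, 11, 1, 3, 5], ![0, 9, 2, 10, 1, 11, 4, 6, 3, 7, 5, 8], by decide, by decide⟩

def r6 : P :=
  ⟨![3, 1, 2, 10, 0, 9, 5, 4, 11, 8, 7, 6], ![4, 1, 2, 0, 7, 6, 11, 10, 9, 5, 3, 8], by decide, by decide⟩

def r7 : P :=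
  ⟨![0, 1, 10, 6, 5, 11, 9, 8, 4, 2, 3, 7], ![0, 1, 9, 10, 8, 4, 3, 11, 7, 6, 2, 5], by decide, by decide⟩

def r8 : P :=
  ⟨![0, 9, 2, 10, 1, 11, 4, 6, 3, 7, 5, 8], ![0, 4, 2, 8, 6, 10, 7, 9, 11, 1, 3, 5], by decide, by decide⟩

def r9 : P :=
  ⟨![7, 1, 2, 4, 10, 11, 8, 3, 5, 6, 0, 9], ![10, 1, 2, 7, 3, 8, 9, 0, 6, 11, 4, 5], by decide, by decide⟩

def r10 : P :=
  ⟨![5, 9, 7, 2, 0, 4, 1, 3, 11, 6, 8, 10], ![4, 6, 3, 7, 5, 0, 9, 2, 10, 1, 11, 8], by decide, by decide⟩

def r11 : P :=
  ⟨![0, 1, 2, 3, 4, 5, 6, 7, 8, 9, 10, 11], ![0, 1, 2, 3, 4, 5, 6, 7, 8, 9, 10, 11], by decide, by decide⟩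

/-- an element that maps `11` to `i` -/
def r : Fin 12 → P := ![r0, r1, r2, r3, r4, r5, r6, r7, r8, r9, r10, r11]

/-- the words -/
def hw : Fin 4 → Fin 12 → List Bool := ![
  ![[false, false, false, true],
    [true, false],
    [false, false, false, true, false, true],
    [],
    [],
    [false, false, false, false, true, true, true, true],
    [],
    [false, false, true, true],
    [false, false, true, true],
    [],
    [false, false, false, true, false, true],
    [false]],
  ![[false, false, false, true, true, true],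
    [false, false, false, false, true, false, true],
    [true, false, false, true],
    [false, false, false, true, true, true],
    [],
    [false, false, true, false],
    [false, false, true, false],
    [],
    [false, false, false, false, true, false, false, true],
    [],
    [false, false, true, true, true],
    [true]],
  ![[true, false, false],
    [false, false],
    [false, false, false],
    [false, false, false, true, true],
    [false, false, true, true, true, true],
    [true, true, true, true],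
    [true, true, true],
    [false, false, true, true],
    [true, true, true],
    [],
    [true, false],
    []],
  ![[true, true, true],
    [false, false, false, false, true, false, false],
    [false, true, true],
    [false, true],
    [],
    [false, false, false],
    [false, false, true, false],
    [false, false, false],
    [false, false, false, false],
    [false, false, true, false, false, false],
    [false, true, true, true, true],
    []]]

theorem hw_eq : ∀ (k : Fin 4) (i : Fin 12),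
    wd al0 al1 (hw k i) = (r (al k i))⁻¹ * al k * r i := by
  decide +kernel

theorem h_mem (k : Fin 4) (i : Fin 12) : (r (al k i))⁻¹ * al k * r i ∈ C 2 3 := by
  rw [← hw_eq]
  exact wd_mem (al_mem (k := 0) (by decide) (by decide)) (al_mem (k := 1) (by decide) (by decide)) _

theorem T_coset {x : P} (hx : x ∈ T) : ∃ i, (r i)⁻¹ * x ∈ C 2 3 := by
  unfold T at hx
  induction hx using Subgroup.closure_induction_left with
  | one =>
    refine ⟨11, ?_⟩
    have : r 11 = 1 := by decide +kernel
    rw [this, inv_one, one_mul]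
    exact (C 2 3).one_mem
  | mul_left s hs y _ ih =>
    obtain ⟨k, rfl⟩ := hs
    obtain ⟨i, hi⟩ := ih
    refine ⟨al k i, ?_⟩
    have e : (r (al k i))⁻¹ * (al k * y) = ((r (al k i))⁻¹ * al k * r i) * ((r i)⁻¹ * y) := by
      group
    rw [e]
    exact (C 2 3).mul_mem (h_mem k i) hi
  | inv_mul_cancel s hs y _ ih =>
    obtain ⟨k, rfl⟩ := hs
    obtain ⟨i, hi⟩ := ih
    refine ⟨(al k)⁻¹ i, ?_⟩
    have h1 := h_mem k ((al k)⁻¹ i)
    have h0 : al k ((al k)⁻¹ i) = i := by rw [← Equiv.Perm.mul_apply, mul_inv_cancel]; rfl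
    rw [h0] at h1
    have e : (r ((al k)⁻¹ i))⁻¹ * ((al k)⁻¹ * y) =
        ((r i)⁻¹ * al k * r ((al k)⁻¹ i))⁻¹ * ((r i)⁻¹ * y) := by
      group
    rw [e]
    exact (C 2 3).mul_mem ((C 2 3).inv_mem h1) hi

theorem card_T : Nat.card T ≤ 660 := by
  classical
  have h : ∀ x : T, ∃ i, (r i)⁻¹ * (x : P) ∈ C 2 3 := fun x => T_coset x.2
  choose i hi using h
  let f : T → Fin 12 × {l : List ℕ // l ∈ E23.toFinset} := fun x =>
    (i x, ⟨enc ((r (i x))⁻¹ * (x : P)), List.mem_toFinset.2 (m23 (hi x))⟩)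
  have hf : Function.Injective f := by
    intro x y hxy
    have h1 : i x = i y := congrArg Prod.fst hxy
    have h2 : enc ((r (i x))⁻¹ * (x : P)) = enc ((r (i y))⁻¹ * (y : P)) :=
      congrArg (fun z => (z.2 : List ℕ)) hxy
    have h3 := enc_inj h2
    rw [h1] at h3
    exact Subtype.ext (mul_left_cancel h3)
  have h1 := Nat.card_le_card_of_injective f hf
  have h2 : Nat.card (Fin 12 × {l : List ℕ // l ∈ E23.toFinset}) = 12 * E23.toFinset.card := by
    rw [Nat.card_prod, Nat.card_eq_fintype_card, Fintype.card_fin, Nat.card_eq_fintype_card,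
      Fintype.card_coe]
  have h3 : E23.toFinset.card ≤ 55 := (List.toFinset_card_le E23).trans (by decide)
  omega

end Pool.Agent.U291.Whit
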