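import Pool.Agent.U291.Whit.Inj

/-!
# The configuration in `PSL(2, 11)`

Four elements `al 0, …, al 3` of order five of `PSL(2, 11)`, acting on the projective line
(`11` stands for the point at infinity), and the six subgroups generated by two of them.
-/

set_option autoImplicit false

namespace Pool.Agent.U291.Whit

/-- permutations of twelve points -/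
abbrev P := Equiv.Perm (Fin 12)

def al0 : P :=
  ⟨![0, 4, 8, 1, 5, 9, 2, 6, 10, 3, 7, 11], ![0, 3, 6, 9, 1, 4, 7, 10, 2, 5, 8, 11], by decide, by decide⟩

def al1 : P :=
  ⟨![5, 9, 2, 6, 10, 3, 7, 0, 4, 8, 1, 11], ![7, 10, 2, 5, 8, 0, 3, 6, 9, 1, 4, 11], by decide, by decide⟩

def al2 : P :=
  ⟨![7, 1, 2, 4, 10, 11, 8, 3, 5, 6, 0, 9], ![10, 1, 2, 7, 3, 8, 9, 0, 6, 11, 4, 5], by decide, by decide⟩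

def al3 : P :=
  ⟨![0, 1, 6, 2, 7, 8, 10, 5, 11, 3, 9, 4], ![0, 1, 3, 9, 11, 7, 2, 4, 5, 10, 6, 8], by decide, by decide⟩

def be0 : P :=
  ⟨![7, 1, 6, 0, 5, 10, 4, 9, 3, 8, 2, 11], ![3, 1, 10, 8, 6, 4, 2, 0, 9, 7, 5, 11], by decide, by decide⟩

def be1 : P :=
  ⟨![7, 10, 5, 1, 11, 6, 2, 8, 0, 4, 3, 9], ![8, 3, 6, 10, 9, 2, 5, 0, 7, 11, 1, 4], by decide, by decide⟩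

def be2 : P :=
  ⟨![0, 9, 2, 10, 1, 11, 4, 6, 3, 7, 5, 8], ![0, 4, 2, 8, 6, 10, 7, 9, 11, 1, 3, 5], by decide, by decide⟩

/-- the list of the values of a permutation -/
def enc (x : P) : List ℕ := List.ofFn fun i => (x i : ℕ)

/-- composition with a table -/
def act (t l : List ℕ) : List ℕ := l.map fun n => t.getD n 0

theorem enc_mul (s x : P) : enc (s * x) = act (enc s) (enc x) := by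
  unfold enc act
  rw [List.map_ofFn]
  congr 1
  funext i
  have hlt : ((x i : Fin 12) : ℕ) < (List.ofFn fun i => (s i : ℕ)).length := by
    rw [List.length_ofFn]; exact (x i).isLt
  show ((s (x i) : Fin 12) : ℕ) = (List.ofFn fun i => (s i : ℕ)).getD ((x i : Fin 12) : ℕ) 0
  rw [List.getD_eq_getElem _ _ hlt, List.getElem_ofFn]

theorem enc_inj {x y : P} (h : enc x = enc y) : x = y := by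
  have := List.ofFn_injective h
  ext i
  exact congrFun this i

/-- the list is closed under composition with the table -/
def clo (E : List (List ℕ)) (t : List ℕ) : Bool := E.all fun l => E.contains (act t l)

theorem clo_mem {E : List (List ℕ)} {t l : List ℕ} (h : clo E t = true) (hl : l ∈ E) :
    act t l ∈ E := by
  unfold clo at h
  rw [List.all_eq_true] at h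
  exact List.contains_iff_mem.1 (h l hl)

theorem mem_list {E : List (List ℕ)} {S : Set P} (h1 : enc 1 ∈ E)
    (hS : ∀ s ∈ S, clo E (enc s) = true ∧ clo E (enc s⁻¹) = true) {x : P}
    (hx : x ∈ Subgroup.closure S) : enc x ∈ E := by
  induction hx using Subgroup.closure_induction_left with
  | one => exact h1
  | mul_left s hs y _ ih => rw [enc_mul]; exact clo_mem (hS s hs).1 ih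
  | inv_mul_cancel s hs y _ ih => rw [enc_mul]; exact clo_mem (hS s hs).2 ih

/-- the elements of the subgroup generated by `al2` and `al3` -/
def E01 : List (List ℕ) := [
  [0, 1, 2, 3, 4, 5, 6, 7, 8, 9, 10, 11],
  [0, 1, 3, 9, 11, 7, 2, 4, 5, 10, 6, 8],
  [0, 1, 6, 2, 7, 8, 10, 5, 11, 3, 9, 4],
  [0, 1, 9, 10, 8, 4, 3, 11, 7, 6, 2, 5],
  [0, 1, 10, 6, 5, 11, 9, 8, 4, 2, 3, 7],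
  [2, 1, 5, 8, 3, 10, 11, 4, 0, 6, 9, 7],
  [2, 1, 6, 9, 0, 3, 8, 7, 4, 11, 5, 10],
  [2, 1, 8, 6, 7, 4, 5, 3, 10, 9, 11, 0],
  [2, 1, 9, 11, 10, 7, 6, 0, 3, 5, 8, 4],
  [2, 1, 11, 5, 4, 0, 9, 10, 7, 8, 6, 3],
  [3, 1, 2, 10, 0, 9, 5, 4, 11, 8, 7, 6],
  [3, 1, 5, 2, 4, 11, 7, 9, 6, 10, 8, 0],
  [3, 1, 7, 5, 9, 6, 8, 11, 0, 2, 10, 4],
  [3, 1, 8, 7, 11, 0, 10, 6, 4, 5, 2, 9],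
  [3, 1, 10, 8, 6, 4, 2, 0, 9, 7, 5, 11],
  [4, 1, 0, 5, 8, 10, 2, 7, 6, 3, 11, 9],
  [4, 1, 2, 0, 7, 6, 11, 10, 9, 5, 3, 8],
  [4, 1, 3, 11, 6, 8, 5, 9, 7, 2, 0, 10],
  [4, 1, 5, 3, 9, 7, 0, 8, 10, 11, 2, 6],
  [4, 1, 11, 2, 10, 9, 3, 6, 8, 0, 5, 7],
  [5, 1, 0, 11, 4, 3, 10, 8, 9, 6, 7, 2],
  [5, 1, 6, 7, 9, 4, 11, 2, 8, 10, 0, 3],
  [5, 1, 7, 10, 3, 2, 6, 9, 4, 0, 11, 8],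
  [5, 1, 10, 0, 8, 9, 7, 3, 2, 11, 6, 4],
  [5, 1, 11, 6, 2, 8, 0, 4, 3, 7, 10, 9],
  [6, 1, 3, 4, 9, 5, 10, 0, 2, 8, 11, 7],
  [6, 1, 4, 8, 7, 0, 3, 9, 5, 11, 10, 2],
  [6, 1, 8, 11, 2, 9, 4, 7, 0, 10, 3, 5],
  [6, 1, 10, 3, 0, 2, 11, 5, 7, 4, 8, 9],
  [6, 1, 11, 10, 5, 7, 8, 2, 9, 3, 4, 0],
  [7, 1, 0, 8, 11, 9, 6, 5, 10, 2, 4, 3],
  [7, 1, 2, 4, 10, 11, 8, 3, 5, 6, 0, 9],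
  [7, 1, 4, 6, 9, 3, 2, 10, 11, 0, 8, 5],
  [7, 1, 6, 0, 5, 10, 4, 9, 3, 8, 2, 11],
  [7, 1, 8, 2, 3, 5, 0, 11, 9, 4, 6, 10],
  [8, 1, 0, 4, 7, 2, 9, 11, 3, 10, 5, 6],
  [8, 1, 4, 10, 6, 11, 0, 7, 2, 5, 9, 3],
  [8, 1, 5, 9, 2, 6, 10, 3, 7, 0, 4, 11],
  [8, 1, 9, 0, 11, 3, 5, 2, 6, 4, 10, 7],
  [8, 1, 10, 5, 3, 7, 4, 6, 11, 9, 0, 2],
  [9, 1, 3, 6, 0, 10, 7, 11, 8, 5, 4, 2],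
  [9, 1, 4, 7, 10, 2, 5, 8, 0, 3, 6, 11],
  [9, 1, 5, 4, 8, 0, 6, 2, 11, 7, 3, 10],
  [9, 1, 6, 5, 2, 11, 3, 0, 10, 4, 7, 8],
  [9, 1, 7, 3, 11, 8, 4, 10, 2, 6, 5, 0],
  [10, 1, 2, 7, 3, 8, 9, 0, 6, 11, 4, 5],
  [10, 1, 4, 9, 8, 5, 11, 6, 3, 2, 7, 0],
  [10, 1, 7, 11, 5, 0, 2, 3, 8, 4, 9, 6],
  [10, 1, 9, 2, 0, 6, 4, 8, 5, 7, 11, 3],
  [10, 1, 11, 4, 6, 3, 7, 5, 0, 9, 2, 8],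
  [11, 1, 0, 7, 5, 6, 3, 4, 2, 9, 8, 10],
  [11, 1, 3, 0, 4, 2, 8, 6, 10, 7, 9, 5],
  [11, 1, 7, 9, 10, 4, 0, 5, 6, 8, 3, 2],
  [11, 1, 8, 3, 6, 10, 9, 2, 5, 0, 7, 4],
  [11, 1, 9, 8, 2, 5, 7, 10, 4, 3, 0, 6]]

/-- the elements of the subgroup generated by `al1` and `al3` -/
def E02 : List (List ℕ) := [
  [0, 1, 2, 3, 4, 5, 6, 7, 8, 9, 10, 11],
  [0, 1, 3, 9, 11, 7, 2, 4, 5, 10, 6, 8],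
  [0, 1, 6, 2, 7, 8, 10, 5, 11, 3, 9, 4],
  [0, 1, 9, 10, 8, 4, 3, 11, 7, 6, 2, 5],
  [0, 1, 10, 6, 5, 11, 9, 8, 4, 2, 3, 7],
  [1, 0, 4, 7, 2, 9, 11, 3, 10, 5, 8, 6],
  [1, 0, 5, 8, 10, 2, 7, 6, 3, 11, 4, 9],
  [1, 0, 7, 5, 6, 3, 4, 2, 9, 8, 11, 10],
  [1, 0, 8, 11, 9, 6, 5, 10, 2, 4, 7, 3],
  [1, 0, 11, 4, 3, 10, 8, 9, 6, 7, 5, 2],
  [2, 11, 0, 6, 8, 9, 3, 10, 4, 5, 7, 1],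
  [2, 11, 3, 0, 10, 4, 7, 9, 1, 6, 5, 8],
  [2, 11, 5, 7, 4, 8, 6, 1, 10, 3, 0, 9],
  [2, 11, 6, 5, 1, 10, 0, 8, 9, 7, 3, 4],
  [2, 11, 7, 3, 9, 1, 5, 4, 8, 0, 6, 10],
  [3, 8, 0, 2, 5, 10, 9, 6, 11, 7, 4, 1],
  [3, 8, 2, 7, 1, 6, 0, 5, 10, 4, 9, 11],
  [3, 8, 4, 9, 10, 1, 7, 11, 5, 0, 2, 6],
  [3, 8, 7, 4, 11, 5, 2, 1, 6, 9, 0, 10],
  [3, 8, 9, 0, 6, 11, 4, 10, 1, 2, 7, 5],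
  [4, 6, 1, 11, 10, 5, 7, 8, 2, 9, 3, 0],
  [4, 6, 3, 7, 5, 0, 9, 2, 10, 1, 11, 8],
  [4, 6, 7, 1, 8, 2, 3, 5, 0, 11, 9, 10],
  [4, 6, 9, 3, 2, 10, 11, 0, 8, 7, 1, 5],
  [4, 6, 11, 9, 0, 8, 1, 10, 5, 3, 7, 2],
  [5, 9, 1, 7, 3, 11, 8, 4, 10, 2, 6, 0],
  [5, 9, 2, 6, 10, 3, 7, 0, 4, 8, 1, 11],
  [5, 9, 6, 8, 11, 0, 2, 10, 3, 1, 7, 4],
  [5, 9, 7, 2, 0, 4, 1, 3, 11, 6, 8, 10],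
  [5, 9, 8, 1, 4, 10, 6, 11, 0, 7, 2, 3],
  [6, 4, 0, 10, 11, 3, 2, 9, 7, 8, 5, 1],
  [6, 4, 2, 0, 9, 7, 5, 3, 1, 10, 8, 11],
  [6, 4, 5, 2, 3, 1, 8, 7, 11, 0, 10, 9],
  [6, 4, 8, 5, 7, 11, 10, 1, 9, 2, 0, 3],
  [6, 4, 10, 8, 1, 9, 0, 11, 3, 5, 2, 7],
  [7, 10, 1, 4, 9, 8, 5, 11, 6, 3, 2, 0],
  [7, 10, 2, 5, 8, 0, 3, 6, 9, 1, 4, 11],
  [7, 10, 3, 2, 6, 9, 4, 0, 11, 5, 1, 8],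
  [7, 10, 4, 3, 0, 11, 1, 9, 8, 2, 5, 6],
  [7, 10, 5, 1, 11, 6, 2, 8, 0, 4, 3, 9],
  [8, 3, 1, 5, 2, 4, 11, 7, 9, 6, 10, 0],
  [8, 3, 5, 6, 0, 7, 1, 2, 4, 10, 11, 9],
  [8, 3, 6, 10, 9, 2, 5, 0, 7, 11, 1, 4],
  [8, 3, 10, 11, 4, 0, 6, 9, 2, 1, 5, 7],
  [8, 3, 11, 1, 7, 9, 10, 4, 0, 5, 6, 2],
  [9, 5, 0, 3, 7, 6, 10, 2, 8, 4, 11, 1],
  [9, 5, 3, 4, 1, 2, 0, 7, 6, 11, 10, 8],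
  [9, 5, 4, 11, 8, 7, 3, 1, 2, 10, 0, 6],
  [9, 5, 10, 0, 2, 8, 11, 6, 1, 3, 4, 7],
  [9, 5, 11, 10, 6, 1, 4, 8, 7, 0, 3, 2],
  [10, 7, 0, 9, 4, 2, 6, 3, 5, 11, 8, 1],
  [10, 7, 6, 0, 3, 5, 8, 2, 1, 9, 11, 4],
  [10, 7, 8, 6, 2, 1, 11, 5, 4, 0, 9, 3],
  [10, 7, 9, 11, 1, 3, 0, 4, 2, 8, 6, 5],
  [10, 7, 11, 8, 5, 4, 9, 1, 3, 6, 0, 2],
  [11, 2, 1, 8, 6, 7, 4, 5, 3, 10, 9, 0],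
  [11, 2, 4, 1, 5, 3, 9, 7, 0, 8, 10, 6],
  [11, 2, 8, 10, 0, 5, 1, 6, 7, 9, 4, 3],
  [11, 2, 9, 4, 7, 0, 10, 3, 6, 1, 8, 5],
  [11, 2, 10, 9, 3, 6, 8, 0, 5, 4, 1, 7]]

/-- the elements of the subgroup generated by `al1` and `al2` -/
def E03 : List (List ℕ) := [
  [0, 1, 2, 3, 4, 5, 6, 7, 8, 9, 10, 11],
  [0, 4, 2, 8, 6, 10, 7, 9, 11, 1, 3, 5],
  [0, 6, 2, 11, 7, 3, 9, 1, 5, 4, 8, 10],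
  [0, 7, 2, 5, 9, 8, 1, 4, 10, 6, 11, 3],
  [0, 9, 2, 10, 1, 11, 4, 6, 3, 7, 5, 8],
  [1, 5, 2, 4, 11, 7, 9, 6, 10, 8, 3, 0],
  [1, 6, 2, 7, 8, 10, 5, 11, 3, 9, 0, 4],
  [1, 8, 2, 3, 5, 0, 11, 9, 4, 6, 7, 10],
  [1, 9, 2, 0, 6, 4, 8, 5, 7, 11, 10, 3],
  [1, 11, 2, 10, 9, 3, 6, 8, 0, 5, 4, 7],
  [3, 0, 2, 11, 5, 7, 4, 8, 6, 1, 10, 9],
  [3, 1, 2, 10, 0, 9, 5, 4, 11, 8, 7, 6],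
  [3, 4, 2, 9, 8, 11, 1, 0, 7, 5, 6, 10],
  [3, 5, 2, 6, 4, 10, 8, 1, 9, 0, 11, 7],
  [3, 8, 2, 7, 1, 6, 0, 5, 10, 4, 9, 11],
  [4, 1, 2, 0, 7, 6, 11, 10, 9, 5, 3, 8],
  [4, 5, 2, 3, 1, 8, 7, 11, 0, 10, 6, 9],
  [4, 7, 2, 9, 11, 3, 10, 5, 8, 1, 0, 6],
  [4, 10, 2, 6, 5, 9, 1, 7, 3, 11, 8, 0],
  [4, 11, 2, 8, 10, 0, 5, 1, 6, 7, 9, 3],
  [5, 0, 2, 3, 8, 4, 9, 10, 1, 7, 11, 6],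
  [5, 7, 2, 11, 0, 6, 8, 9, 3, 10, 4, 1],
  [5, 8, 2, 1, 9, 11, 10, 7, 6, 0, 3, 4],
  [5, 9, 2, 6, 10, 3, 7, 0, 4, 8, 1, 11],
  [5, 10, 2, 4, 7, 1, 0, 8, 11, 9, 6, 3],
  [6, 3, 2, 7, 10, 1, 4, 9, 8, 5, 11, 0],
  [6, 4, 2, 0, 9, 7, 5, 3, 1, 10, 8, 11],
  [6, 5, 2, 11, 3, 0, 10, 4, 7, 9, 1, 8],
  [6, 9, 2, 1, 5, 8, 3, 10, 11, 4, 0, 7],
  [6, 10, 2, 8, 4, 11, 9, 5, 0, 3, 7, 1],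
  [7, 1, 2, 4, 10, 11, 8, 3, 5, 6, 0, 9],
  [7, 3, 2, 11, 6, 5, 1, 10, 0, 8, 9, 4],
  [7, 6, 2, 0, 1, 9, 10, 8, 4, 3, 11, 5],
  [7, 8, 2, 9, 3, 4, 6, 1, 11, 10, 5, 0],
  [7, 10, 2, 5, 8, 0, 3, 6, 9, 1, 4, 11],
  [8, 0, 2, 5, 10, 9, 6, 11, 7, 4, 3, 1],
  [8, 4, 2, 3, 0, 1, 10, 6, 5, 11, 9, 7],
  [8, 6, 2, 1, 11, 5, 4, 0, 9, 10, 7, 3],
  [8, 10, 2, 7, 6, 3, 11, 4, 1, 0, 5, 9],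
  [8, 11, 2, 9, 4, 7, 0, 10, 3, 6, 1, 5],
  [9, 3, 2, 10, 11, 0, 8, 7, 1, 4, 6, 5],
  [9, 4, 2, 6, 3, 5, 11, 8, 10, 7, 0, 1],
  [9, 7, 2, 0, 4, 1, 3, 11, 6, 8, 5, 10],
  [9, 8, 2, 5, 7, 10, 4, 3, 0, 11, 1, 6],
  [9, 11, 2, 1, 8, 6, 7, 4, 5, 3, 10, 0],
  [10, 0, 2, 8, 11, 6, 1, 3, 4, 9, 5, 7],
  [10, 1, 2, 7, 3, 8, 9, 0, 6, 11, 4, 5],
  [10, 3, 2, 6, 9, 4, 0, 11, 5, 1, 7, 8],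
  [10, 9, 2, 5, 0, 7, 11, 1, 8, 3, 6, 4],
  [10, 11, 2, 4, 1, 5, 3, 9, 7, 0, 8, 6],
  [11, 0, 2, 10, 3, 1, 7, 5, 9, 6, 8, 4],
  [11, 3, 2, 9, 7, 8, 5, 6, 4, 0, 10, 1],
  [11, 5, 2, 1, 6, 9, 0, 3, 8, 7, 4, 10],
  [11, 6, 2, 8, 0, 4, 3, 7, 10, 5, 1, 9],
  [11, 7, 2, 4, 5, 10, 6, 0, 1, 3, 9, 8]]

/-- the elements of the subgroup generated by `al0` and `al3` -/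
def E12 : List (List ℕ) := [
  [0, 1, 2, 3, 4, 5, 6, 7, 8, 9, 10, 11],
  [0, 1, 3, 9, 11, 7, 2, 4, 5, 10, 6, 8],
  [0, 1, 6, 2, 7, 8, 10, 5, 11, 3, 9, 4],
  [0, 1, 9, 10, 8, 4, 3, 11, 7, 6, 2, 5],
  [0, 1, 10, 6, 5, 11, 9, 8, 4, 2, 3, 7],
  [0, 2, 3, 8, 4, 9, 10, 1, 7, 11, 5, 6],
  [0, 2, 5, 10, 9, 6, 11, 7, 4, 3, 8, 1],
  [0, 2, 8, 11, 6, 1, 3, 4, 9, 5, 10, 7],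
  [0, 2, 10, 3, 1, 7, 5, 9, 6, 8, 11, 4],
  [0, 2, 11, 5, 7, 4, 8, 6, 1, 10, 3, 9],
  [0, 3, 5, 8, 2, 1, 9, 11, 10, 7, 6, 4],
  [0, 3, 6, 9, 1, 4, 7, 10, 2, 5, 8, 11],
  [0, 3, 7, 6, 10, 2, 8, 4, 11, 9, 5, 1],
  [0, 3, 8, 7, 4, 11, 5, 2, 1, 6, 9, 10],
  [0, 3, 9, 5, 11, 10, 6, 1, 4, 8, 7, 2],
  [0, 4, 1, 3, 11, 6, 8, 5, 9, 7, 2, 10],
  [0, 4, 2, 8, 6, 10, 7, 9, 11, 1, 3, 5],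
  [0, 4, 3, 7, 10, 5, 1, 11, 6, 2, 8, 9],
  [0, 4, 7, 2, 9, 11, 3, 10, 5, 8, 1, 6],
  [0, 4, 8, 1, 5, 9, 2, 6, 10, 3, 7, 11],
  [0, 5, 1, 6, 7, 9, 4, 11, 2, 8, 10, 3],
  [0, 5, 4, 1, 11, 2, 10, 9, 3, 6, 8, 7],
  [0, 5, 6, 8, 3, 11, 1, 7, 9, 10, 4, 2],
  [0, 5, 8, 10, 2, 7, 6, 3, 11, 4, 1, 9],
  [0, 5, 10, 4, 9, 3, 8, 2, 7, 1, 6, 11],
  [0, 6, 2, 11, 7, 3, 9, 1, 5, 4, 8, 10],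
  [0, 6, 4, 8, 5, 7, 11, 10, 1, 9, 2, 3],
  [0, 6, 8, 9, 3, 10, 4, 5, 7, 2, 11, 1],
  [0, 6, 9, 2, 1, 5, 8, 3, 10, 11, 4, 7],
  [0, 6, 11, 4, 10, 1, 2, 7, 3, 8, 9, 5],
  [0, 7, 1, 2, 4, 10, 11, 8, 3, 5, 6, 9],
  [0, 7, 2, 5, 9, 8, 1, 4, 10, 6, 11, 3],
  [0, 7, 5, 6, 3, 4, 2, 9, 8, 11, 1, 10],
  [0, 7, 6, 11, 10, 9, 5, 3, 4, 1, 2, 8],
  [0, 7, 11, 1, 8, 3, 6, 10, 9, 2, 5, 4],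
  [0, 8, 1, 10, 5, 3, 7, 4, 6, 11, 9, 2],
  [0, 8, 7, 1, 4, 6, 9, 3, 2, 10, 11, 5],
  [0, 8, 9, 7, 3, 2, 11, 6, 5, 1, 10, 4],
  [0, 8, 10, 11, 2, 4, 1, 5, 3, 9, 7, 6],
  [0, 8, 11, 9, 6, 5, 10, 2, 4, 7, 1, 3],
  [0, 9, 2, 10, 1, 11, 4, 6, 3, 7, 5, 8],
  [0, 9, 4, 2, 6, 3, 5, 11, 8, 10, 7, 1],
  [0, 9, 5, 4, 11, 8, 7, 3, 1, 2, 10, 6],
  [0, 9, 7, 5, 3, 1, 10, 8, 6, 4, 2, 11],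
  [0, 9, 10, 7, 8, 6, 2, 1, 11, 5, 4, 3],
  [0, 10, 3, 6, 1, 8, 11, 2, 9, 4, 7, 5],
  [0, 10, 4, 7, 9, 1, 6, 5, 2, 11, 3, 8],
  [0, 10, 6, 4, 5, 2, 3, 1, 8, 7, 11, 9],
  [0, 10, 7, 11, 8, 5, 4, 9, 1, 3, 6, 2],
  [0, 10, 11, 3, 2, 9, 7, 8, 5, 6, 4, 1],
  [0, 11, 1, 9, 8, 2, 5, 7, 10, 4, 3, 6],
  [0, 11, 3, 5, 2, 6, 4, 10, 8, 1, 9, 7],
  [0, 11, 4, 3, 10, 8, 9, 6, 7, 5, 1, 2],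
  [0, 11, 5, 1, 7, 10, 3, 2, 6, 9, 4, 8],
  [0, 11, 9, 4, 6, 7, 1, 8, 2, 3, 5, 10]]

/-- the elements of the subgroup generated by `al0` and `al2` -/
def E13 : List (List ℕ) := [
  [0, 1, 2, 3, 4, 5, 6, 7, 8, 9, 10, 11],
  [0, 3, 6, 9, 1, 4, 7, 10, 2, 5, 8, 11],
  [0, 4, 8, 1, 5, 9, 2, 6, 10, 3, 7, 11],
  [0, 5, 10, 4, 9, 3, 8, 2, 7, 1, 6, 11],
  [0, 9, 7, 5, 3, 1, 10, 8, 6, 4, 2, 11],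
  [1, 0, 11, 4, 3, 10, 8, 9, 6, 7, 5, 2],
  [1, 3, 6, 0, 10, 7, 11, 8, 5, 4, 9, 2],
  [1, 4, 8, 7, 0, 3, 9, 5, 11, 10, 6, 2],
  [1, 7, 9, 10, 4, 0, 5, 6, 8, 3, 11, 2],
  [1, 10, 5, 3, 7, 4, 6, 11, 9, 0, 8, 2],
  [2, 5, 10, 9, 6, 11, 7, 4, 3, 8, 0, 1],
  [2, 6, 3, 5, 11, 8, 10, 7, 0, 9, 4, 1],
  [2, 8, 4, 11, 9, 5, 0, 3, 7, 6, 10, 1],
  [2, 9, 7, 8, 5, 6, 4, 0, 10, 11, 3, 1],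
  [2, 11, 0, 6, 8, 9, 3, 10, 4, 5, 7, 1],
  [3, 0, 11, 1, 9, 8, 2, 5, 7, 10, 4, 6],
  [3, 1, 2, 10, 0, 9, 5, 4, 11, 8, 7, 6],
  [3, 8, 4, 9, 10, 1, 7, 11, 5, 0, 2, 6],
  [3, 9, 7, 0, 8, 10, 11, 2, 4, 1, 5, 6],
  [3, 10, 5, 8, 1, 0, 4, 7, 2, 9, 11, 6],
  [4, 0, 11, 5, 1, 7, 10, 3, 2, 6, 9, 8],
  [4, 1, 2, 0, 7, 6, 11, 10, 9, 5, 3, 8],
  [4, 5, 10, 6, 0, 1, 3, 9, 11, 7, 2, 8],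
  [4, 6, 3, 7, 5, 0, 9, 2, 10, 1, 11, 8],
  [4, 7, 9, 1, 6, 5, 2, 11, 3, 0, 10, 8],
  [5, 0, 11, 9, 4, 6, 7, 1, 8, 2, 3, 10],
  [5, 2, 1, 6, 9, 0, 3, 8, 7, 4, 11, 10],
  [5, 4, 8, 0, 6, 2, 11, 7, 3, 9, 1, 10],
  [5, 6, 3, 4, 2, 9, 8, 11, 1, 0, 7, 10],
  [5, 9, 7, 2, 0, 4, 1, 3, 11, 6, 8, 10],
  [6, 2, 1, 11, 5, 4, 0, 9, 10, 7, 8, 3],
  [6, 4, 8, 5, 7, 11, 10, 1, 9, 2, 0, 3],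
  [6, 5, 10, 2, 4, 7, 1, 0, 8, 11, 9, 3],
  [6, 7, 9, 4, 11, 2, 8, 10, 0, 5, 1, 3],
  [6, 11, 0, 7, 2, 5, 9, 8, 1, 4, 10, 3],
  [7, 1, 2, 4, 10, 11, 8, 3, 5, 6, 0, 9],
  [7, 4, 8, 6, 1, 10, 3, 0, 2, 11, 5, 9],
  [7, 6, 3, 11, 4, 1, 0, 5, 8, 10, 2, 9],
  [7, 10, 5, 1, 11, 6, 2, 8, 0, 4, 3, 9],
  [7, 11, 0, 10, 6, 4, 5, 2, 3, 1, 8, 9],
  [8, 2, 1, 9, 11, 10, 7, 6, 0, 3, 5, 4],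
  [8, 3, 6, 10, 9, 2, 5, 0, 7, 11, 1, 4],
  [8, 9, 7, 3, 2, 11, 6, 5, 1, 10, 0, 4],
  [8, 10, 5, 11, 3, 9, 0, 1, 6, 2, 7, 4],
  [8, 11, 0, 2, 10, 3, 1, 7, 5, 9, 6, 4],
  [9, 0, 11, 3, 5, 2, 6, 4, 10, 8, 1, 7],
  [9, 2, 1, 5, 8, 3, 10, 11, 4, 0, 6, 7],
  [9, 3, 6, 8, 0, 5, 4, 1, 11, 2, 10, 7],
  [9, 5, 10, 0, 2, 8, 11, 6, 1, 3, 4, 7],
  [9, 8, 4, 2, 3, 0, 1, 10, 6, 5, 11, 7],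
  [10, 1, 2, 7, 3, 8, 9, 0, 6, 11, 4, 5],
  [10, 3, 6, 1, 8, 11, 2, 9, 4, 7, 0, 5],
  [10, 7, 9, 11, 1, 3, 0, 4, 2, 8, 6, 5],
  [10, 8, 4, 3, 11, 7, 6, 2, 0, 1, 9, 5],
  [10, 11, 0, 8, 7, 1, 4, 6, 9, 3, 2, 5],
  [11, 2, 1, 8, 6, 7, 4, 5, 3, 10, 9, 0],
  [11, 6, 3, 2, 7, 10, 1, 4, 9, 8, 5, 0],
  [11, 7, 9, 6, 10, 8, 3, 1, 5, 2, 4, 0],
  [11, 8, 4, 10, 2, 6, 5, 9, 1, 7, 3, 0],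
  [11, 10, 5, 7, 8, 2, 9, 3, 4, 6, 1, 0]]

/-- the elements of the subgroup generated by `al0` and `al1` -/
def E23 : List (List ℕ) := [
  [0, 1, 2, 3, 4, 5, 6, 7, 8, 9, 10, 11],
  [0, 3, 6, 9, 1, 4, 7, 10, 2, 5, 8, 11],
  [0, 4, 8, 1, 5, 9, 2, 6, 10, 3, 7, 11],
  [0, 5, 10, 4, 9, 3, 8, 2, 7, 1, 6, 11],
  [0, 9, 7, 5, 3, 1, 10, 8, 6, 4, 2, 11],
  [1, 2, 3, 4, 5, 6, 7, 8, 9, 10, 0, 11],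
  [1, 4, 7, 10, 2, 5, 8, 0, 3, 6, 9, 11],
  [1, 5, 9, 2, 6, 10, 3, 7, 0, 4, 8, 11],
  [1, 6, 0, 5, 10, 4, 9, 3, 8, 2, 7, 11],
  [1, 10, 8, 6, 4, 2, 0, 9, 7, 5, 3, 11],
  [2, 0, 9, 7, 5, 3, 1, 10, 8, 6, 4, 11],
  [2, 3, 4, 5, 6, 7, 8, 9, 10, 0, 1, 11],
  [2, 5, 8, 0, 3, 6, 9, 1, 4, 7, 10, 11],
  [2, 6, 10, 3, 7, 0, 4, 8, 1, 5, 9, 11],
  [2, 7, 1, 6, 0, 5, 10, 4, 9, 3, 8, 11],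
  [3, 1, 10, 8, 6, 4, 2, 0, 9, 7, 5, 11],
  [3, 4, 5, 6, 7, 8, 9, 10, 0, 1, 2, 11],
  [3, 6, 9, 1, 4, 7, 10, 2, 5, 8, 0, 11],
  [3, 7, 0, 4, 8, 1, 5, 9, 2, 6, 10, 11],
  [3, 8, 2, 7, 1, 6, 0, 5, 10, 4, 9, 11],
  [4, 2, 0, 9, 7, 5, 3, 1, 10, 8, 6, 11],
  [4, 5, 6, 7, 8, 9, 10, 0, 1, 2, 3, 11],
  [4, 7, 10, 2, 5, 8, 0, 3, 6, 9, 1, 11],
  [4, 8, 1, 5, 9, 2, 6, 10, 3, 7, 0, 11],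
  [4, 9, 3, 8, 2, 7, 1, 6, 0, 5, 10, 11],
  [5, 3, 1, 10, 8, 6, 4, 2, 0, 9, 7, 11],
  [5, 6, 7, 8, 9, 10, 0, 1, 2, 3, 4, 11],
  [5, 8, 0, 3, 6, 9, 1, 4, 7, 10, 2, 11],
  [5, 9, 2, 6, 10, 3, 7, 0, 4, 8, 1, 11],
  [5, 10, 4, 9, 3, 8, 2, 7, 1, 6, 0, 11],
  [6, 0, 5, 10, 4, 9, 3, 8, 2, 7, 1, 11],
  [6, 4, 2, 0, 9, 7, 5, 3, 1, 10, 8, 11],
  [6, 7, 8, 9, 10, 0, 1, 2, 3, 4, 5, 11],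
  [6, 9, 1, 4, 7, 10, 2, 5, 8, 0, 3, 11],
  [6, 10, 3, 7, 0, 4, 8, 1, 5, 9, 2, 11],
  [7, 0, 4, 8, 1, 5, 9, 2, 6, 10, 3, 11],
  [7, 1, 6, 0, 5, 10, 4, 9, 3, 8, 2, 11],
  [7, 5, 3, 1, 10, 8, 6, 4, 2, 0, 9, 11],
  [7, 8, 9, 10, 0, 1, 2, 3, 4, 5, 6, 11],
  [7, 10, 2, 5, 8, 0, 3, 6, 9, 1, 4, 11],
  [8, 0, 3, 6, 9, 1, 4, 7, 10, 2, 5, 11],
  [8, 1, 5, 9, 2, 6, 10, 3, 7, 0, 4, 11],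
  [8, 2, 7, 1, 6, 0, 5, 10, 4, 9, 3, 11],
  [8, 6, 4, 2, 0, 9, 7, 5, 3, 1, 10, 11],
  [8, 9, 10, 0, 1, 2, 3, 4, 5, 6, 7, 11],
  [9, 1, 4, 7, 10, 2, 5, 8, 0, 3, 6, 11],
  [9, 2, 6, 10, 3, 7, 0, 4, 8, 1, 5, 11],
  [9, 3, 8, 2, 7, 1, 6, 0, 5, 10, 4, 11],
  [9, 7, 5, 3, 1, 10, 8, 6, 4, 2, 0, 11],
  [9, 10, 0, 1, 2, 3, 4, 5, 6, 7, 8, 11],
  [10, 0, 1, 2, 3, 4, 5, 6, 7, 8, 9, 11],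
  [10, 2, 5, 8, 0, 3, 6, 9, 1, 4, 7, 11],
  [10, 3, 7, 0, 4, 8, 1, 5, 9, 2, 6, 11],
  [10, 4, 9, 3, 8, 2, 7, 1, 6, 0, 5, 11],
  [10, 8, 6, 4, 2, 0, 9, 7, 5, 3, 1, 11]]

/-- the powers of `al0` -/
def W0 : List (List ℕ) := [
  [0, 1, 2, 3, 4, 5, 6, 7, 8, 9, 10, 11],
  [0, 4, 8, 1, 5, 9, 2, 6, 10, 3, 7, 11],
  [0, 5, 10, 4, 9, 3, 8, 2, 7, 1, 6, 11],
  [0, 9, 7, 5, 3, 1, 10, 8, 6, 4, 2, 11],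
  [0, 3, 6, 9, 1, 4, 7, 10, 2, 5, 8, 11]]

/-- the powers of `al1` -/
def W1 : List (List ℕ) := [
  [0, 1, 2, 3, 4, 5, 6, 7, 8, 9, 10, 11],
  [5, 9, 2, 6, 10, 3, 7, 0, 4, 8, 1, 11],
  [3, 8, 2, 7, 1, 6, 0, 5, 10, 4, 9, 11],
  [6, 4, 2, 0, 9, 7, 5, 3, 1, 10, 8, 11],
  [7, 10, 2, 5, 8, 0, 3, 6, 9, 1, 4, 11]]

/-- the powers of `al2` -/
def W2 : List (List ℕ) := [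
  [0, 1, 2, 3, 4, 5, 6, 7, 8, 9, 10, 11],
  [7, 1, 2, 4, 10, 11, 8, 3, 5, 6, 0, 9],
  [3, 1, 2, 10, 0, 9, 5, 4, 11, 8, 7, 6],
  [4, 1, 2, 0, 7, 6, 11, 10, 9, 5, 3, 8],
  [10, 1, 2, 7, 3, 8, 9, 0, 6, 11, 4, 5]]

/-- the powers of `al3` -/
def W3 : List (List ℕ) := [
  [0, 1, 2, 3, 4, 5, 6, 7, 8, 9, 10, 11],
  [0, 1, 6, 2, 7, 8, 10, 5, 11, 3, 9, 4],
  [0, 1, 10, 6, 5, 11, 9, 8, 4, 2, 3, 7],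
  [0, 1, 9, 10, 8, 4, 3, 11, 7, 6, 2, 5],
  [0, 1, 3, 9, 11, 7, 2, 4, 5, 10, 6, 8]]

end Pool.Agent.U291.Whit
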