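import Pool.Agent.U291.Whit.Join

/-!
# Injectivity, and the passage from subgroups to partitions
-/

set_option autoImplicit false

namespace Pool.Agent.U291.Whit

variable {M : Type*} [CompleteLattice M]

/-- The atoms that are not below a given coatom. -/
structure HypN (C : Fin 4 → Fin 4 → M) : Prop where
  a : ¬ A0 C ≤ C 0 1 ∧ ¬ A1 C ≤ C 0 1 ∧ ¬ B1 C ≤ C 0 1 ∧ ¬ B2 C ≤ C 0 1
  b : ¬ A0 C ≤ C 0 2 ∧ ¬ A2 C ≤ C 0 2 ∧ ¬ B0 C ≤ C 0 2 ∧ ¬ B2 C ≤ C 0 2
  c : ¬ A0 C ≤ C 0 3 ∧ ¬ A3 C ≤ C 0 3 ∧ ¬ B0 C ≤ C 0 3 ∧ ¬ B1 C ≤ C 0 3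
  d : ¬ A1 C ≤ C 1 2 ∧ ¬ A2 C ≤ C 1 2 ∧ ¬ B0 C ≤ C 1 2 ∧ ¬ B1 C ≤ C 1 2
  e : ¬ A1 C ≤ C 1 3 ∧ ¬ A3 C ≤ C 1 3 ∧ ¬ B0 C ≤ C 1 3 ∧ ¬ B2 C ≤ C 1 3
  f : ¬ A2 C ≤ C 2 3 ∧ ¬ A3 C ≤ C 2 3 ∧ ¬ B1 C ≤ C 2 3 ∧ ¬ B2 C ≤ C 2 3

variable {T : M} {C : Fin 4 → Fin 4 → M}

theorem chk1 : ∀ a b c d e f : Bool, valid a b c d e f = true →
    (∀ p2 p3 q0 : Bool, sub a b c d e f false false p2 p3 q0 false false = true → a = true) ∧
    (∀ p1 p3 q1 : Bool, sub a b c d e f false p1 false p3 false q1 false = true → b = true) ∧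
    (∀ p1 p2 q2 : Bool, sub a b c d e f false p1 p2 false false false q2 = true → c = true) ∧
    (∀ p0 p3 q2 : Bool, sub a b c d e f p0 false false p3 false false q2 = true → d = true) ∧
    (∀ p0 p2 q1 : Bool, sub a b c d e f p0 false p2 false false q1 false = true → e = true) ∧
    (∀ p0 p1 q0 : Bool, sub a b c d e f p0 p1 false false q0 false false = true → f = true) := by
  decide +kernel

theorem ab_false {X Y : M} (h : ¬ Y ≤ X) : ab Y X = false := by
  rw [← Bool.not_eq_true, ab_iff]; exact h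

theorem edges (h : Hyp T C) (hN : HypN C) (σ : Setoid (Fin 4)) :
    (F C σ ≤ C 0 1 → σ 0 1) ∧ (F C σ ≤ C 0 2 → σ 0 2) ∧ (F C σ ≤ C 0 3 → σ 0 3) ∧
    (F C σ ≤ C 1 2 → σ 1 2) ∧ (F C σ ≤ C 1 3 → σ 1 3) ∧ (F C σ ≤ C 2 3 → σ 2 3) := by
  obtain ⟨c1, c2, c3, c4, c5, c6⟩ := chk1 _ _ _ _ _ _ (cd_valid σ)
  simp only [cd_iff] at c1 c2 c3 c4 c5 c6
  refine ⟨fun hX => ?_, fun hX => ?_, fun hX => ?_, fun hX => ?_, fun hX => ?_, fun hX => ?_⟩ <;>
    have hs := sub_of_le h ((F_eq_G h σ).ge.trans hX)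
  · rw [ab_false hN.a.1, ab_false hN.a.2.1, ab_false hN.a.2.2.1, ab_false hN.a.2.2.2] at hs
    exact c1 _ _ _ hs
  · rw [ab_false hN.b.1, ab_false hN.b.2.1, ab_false hN.b.2.2.1, ab_false hN.b.2.2.2] at hs
    exact c2 _ _ _ hs
  · rw [ab_false hN.c.1, ab_false hN.c.2.1, ab_false hN.c.2.2.1, ab_false hN.c.2.2.2] at hs
    exact c3 _ _ _ hs
  · rw [ab_false hN.d.1, ab_false hN.d.2.1, ab_false hN.d.2.2.1, ab_false hN.d.2.2.2] at hs
    exact c4 _ _ _ hs
  · rw [ab_false hN.e.1, ab_false hN.e.2.1, ab_false hN.e.2.2.1, ab_false hN.e.2.2.2] at hs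
    exact c5 _ _ _ hs
  · rw [ab_false hN.f.1, ab_false hN.f.2.1, ab_false hN.f.2.2.1, ab_false hN.f.2.2.2] at hs
    exact c6 _ _ _ hs

theorem le_of_F (h : Hyp T C) (hN : HypN C) {π σ : Setoid (Fin 4)} (hle : F C σ ≤ F C π) :
    π ≤ σ := by
  obtain ⟨e1, e2, e3, e4, e5, e6⟩ := edges h hN σ
  have key : ∀ i j, π i j → F C σ ≤ C i j := fun i j hij => hle.trans (F_le hij)
  intro i j hij
  have hij' : π i j := hij
  have hji : π j i := π.symm' hij
  show σ i j
  fin_cases i <;> fin_cases j <;>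
    first
      | exact σ.refl' _
      | exact e1 (key _ _ hij')
      | exact e2 (key _ _ hij')
      | exact e3 (key _ _ hij')
      | exact e4 (key _ _ hij')
      | exact e5 (key _ _ hij')
      | exact e6 (key _ _ hij')
      | exact σ.symm' (e1 (key _ _ hji))
      | exact σ.symm' (e2 (key _ _ hji))
      | exact σ.symm' (e3 (key _ _ hji))
      | exact σ.symm' (e4 (key _ _ hji))
      | exact σ.symm' (e5 (key _ _ hji))
      | exact σ.symm' (e6 (key _ _ hji))

theorem F_injective (h : Hyp T C) (hN : HypN C) : Function.Injective (F C) := by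
  intro π σ hπσ
  exact le_antisymm (le_of_F h hN hπσ.ge) (le_of_F h hN hπσ.le)

/-- Left cosets: the lattice of subgroups of a group embeds in its partition lattice. -/
theorem leftRel_inf {G : Type*} [Group G] (H K : Subgroup G) :
    QuotientGroup.leftRel (H ⊓ K) = QuotientGroup.leftRel H ⊓ QuotientGroup.leftRel K := by
  ext x y
  rw [Setoid.inf_iff_and, QuotientGroup.leftRel_apply, QuotientGroup.leftRel_apply,
    QuotientGroup.leftRel_apply]
  exact Subgroup.mem_inf

theorem leftRel_mono {G : Type*} [Group G] {H K : Subgroup G} (h : H ≤ K) :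
    QuotientGroup.leftRel H ≤ QuotientGroup.leftRel K := by
  intro x y hxy
  have hxy' : QuotientGroup.leftRel H x y := hxy
  show QuotientGroup.leftRel K x y
  rw [QuotientGroup.leftRel_apply] at hxy' ⊢
  exact h hxy'

theorem leftRel_sup {G : Type*} [Group G] (H K : Subgroup G) :
    QuotientGroup.leftRel (H ⊔ K) = QuotientGroup.leftRel H ⊔ QuotientGroup.leftRel K := by
  apply le_antisymm _ (sup_le (leftRel_mono le_sup_left) (leftRel_mono le_sup_right))
  have key : ∀ z ∈ H ⊔ K, ∀ x : G,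
      (QuotientGroup.leftRel H ⊔ QuotientGroup.leftRel K) x (x * z) := by
    intro z hz
    rw [← Subgroup.closure_eq H, ← Subgroup.closure_eq K, ← Subgroup.closure_union] at hz
    induction hz using Subgroup.closure_induction with
    | mem z hz =>
      intro x
      rcases hz with hz | hz
      · have h1 : QuotientGroup.leftRel H x (x * z) := by
          rw [QuotientGroup.leftRel_apply, inv_mul_cancel_left]
          exact hz
        exact (le_sup_left : QuotientGroup.leftRel H ≤ _) h1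
      · have h1 : QuotientGroup.leftRel K x (x * z) := by
          rw [QuotientGroup.leftRel_apply, inv_mul_cancel_left]
          exact hz
        exact (le_sup_right : QuotientGroup.leftRel K ≤ _) h1
    | one => intro x; rw [mul_one]
    | mul a b _ _ ha hb =>
      intro x
      rw [← mul_assoc]
      exact Setoid.trans' _ (ha x) (hb (x * a))
    | inv a _ ha =>
      intro x
      have := ha (x * a⁻¹)
      rw [inv_mul_cancel_right] at this
      exact Setoid.symm' _ this
  intro x y hxy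
  have hxy' : QuotientGroup.leftRel (H ⊔ K) x y := hxy
  rw [QuotientGroup.leftRel_apply] at hxy'
  have := key _ hxy' x
  rwa [mul_inv_cancel_left] at this

theorem leftRel_injective {G : Type*} [Group G] :
    Function.Injective (QuotientGroup.leftRel : Subgroup G → Setoid G) := by
  intro H K hHK
  ext x
  have h1 : QuotientGroup.leftRel H 1 x ↔ QuotientGroup.leftRel K 1 x := by rw [hHK]
  rw [QuotientGroup.leftRel_apply, QuotientGroup.leftRel_apply] at h1
  simpa using h1

/-- The conclusion: a lattice embedding of the dual of the partition lattice of four points in the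
partition lattice of a group. -/
theorem exists_hom {G : Type*} [Group G] {T : Subgroup G} {C : Fin 4 → Fin 4 → Subgroup G}
    (h : Hyp T C) (hJ : HypJ T C) (hN : HypN C) :
    ∃ f : LatticeHom (Setoid (Fin 4))ᵒᵈ (Setoid G), Function.Injective f := by
  refine ⟨{ toFun := fun π => QuotientGroup.leftRel (F C (OrderDual.ofDual π))
            map_sup' := fun π σ => ?_
            map_inf' := fun π σ => ?_ }, ?_⟩
  · rw [ofDual_sup, F_inf h hJ, leftRel_sup]
  · rw [ofDual_inf, F_sup h, leftRel_inf]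
  · intro π σ hπσ
    exact OrderDual.ofDual.injective (F_injective h hN (leftRel_injective hπσ))

end Pool.Agent.U291.Whit
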