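import Pool.Agent.U291.Whit.Abs

/-!
# The join condition
-/

set_option autoImplicit false

namespace Pool.Agent.U291.Whit

variable {M : Type*} [CompleteLattice M]

section
variable (C : Fin 4 → Fin 4 → M)

def A0 : M := C 1 2 ⊓ C 1 3 ⊓ C 2 3
def A1 : M := C 0 2 ⊓ C 0 3 ⊓ C 2 3
def A2 : M := C 0 1 ⊓ C 0 3 ⊓ C 1 3
def A3 : M := C 0 1 ⊓ C 0 2 ⊓ C 1 2
def B0 : M := C 0 1 ⊓ C 2 3
def B1 : M := C 0 2 ⊓ C 1 3
def B2 : M := C 0 3 ⊓ C 1 2

end

/-- The join conditions. -/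
structure HypJ (T : M) (C : Fin 4 → Fin 4 → M) : Prop where
  a1 : C 0 1 ≤ A2 C ⊔ A3 C
  a2 : C 0 1 ≤ A2 C ⊔ B0 C
  a3 : C 0 1 ≤ A3 C ⊔ B0 C
  b1 : C 0 2 ≤ A1 C ⊔ A3 C
  b2 : C 0 2 ≤ A1 C ⊔ B1 C
  b3 : C 0 2 ≤ A3 C ⊔ B1 C
  c1 : C 0 3 ≤ A1 C ⊔ A2 C
  c2 : C 0 3 ≤ A1 C ⊔ B2 C
  c3 : C 0 3 ≤ A2 C ⊔ B2 C
  d1 : C 1 2 ≤ A0 C ⊔ A3 C
  d2 : C 1 2 ≤ A0 C ⊔ B2 C
  d3 : C 1 2 ≤ A3 C ⊔ B2 C
  e1 : C 1 3 ≤ A0 C ⊔ A2 C
  e2 : C 1 3 ≤ A0 C ⊔ B1 C
  e3 : C 1 3 ≤ A2 C ⊔ B1 C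
  f1 : C 2 3 ≤ A0 C ⊔ A1 C
  f2 : C 2 3 ≤ A0 C ⊔ B0 C
  f3 : C 2 3 ≤ A1 C ⊔ B0 C
  t1 : T ≤ B0 C ⊔ B1 C
  t2 : T ≤ B0 C ⊔ B2 C
  t3 : T ≤ B1 C ⊔ B2 C

variable {T : M} {C : Fin 4 → Fin 4 → M}

open Classical in
/-- the code of a partition -/
noncomputable def cd (π : Setoid (Fin 4)) (i j : Fin 4) : Bool := decide (π i j)

open Classical in
theorem cd_iff {π : Setoid (Fin 4)} {i j : Fin 4} : cd π i j = true ↔ π i j := by
  unfold cd; exact decide_eq_true_iff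

theorem cd_inf (π σ : Setoid (Fin 4)) (i j : Fin 4) : cd (π ⊓ σ) i j = (cd π i j && cd σ i j) := by
  rw [Bool.eq_iff_iff, Bool.and_eq_true, cd_iff, cd_iff, cd_iff]
  rfl

theorem imp3 {x y z : Bool} (h : x = true → y = true → z = true) : (!(x && y) || z) = true := by
  cases x <;> cases y <;> simp_all

theorem cd_valid (π : Setoid (Fin 4)) :
    valid (cd π 0 1) (cd π 0 2) (cd π 0 3) (cd π 1 2) (cd π 1 3) (cd π 2 3) = true := by
  have s : ∀ {i j}, π i j → π j i := fun h => π.symm' h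
  have t : ∀ {i j k}, π i j → π j k → π i k := fun h h' => π.trans' h h'
  unfold valid
  simp only [Bool.and_eq_true]
  refine ⟨⟨⟨⟨⟨⟨⟨⟨⟨⟨⟨?_, ?_⟩, ?_⟩, ?_⟩, ?_⟩, ?_⟩, ?_⟩, ?_⟩, ?_⟩, ?_⟩, ?_⟩, ?_⟩ <;>
    refine imp3 fun h1 h2 => ?_ <;> rw [cd_iff] at h1 h2 ⊢
  · exact t (s h1) h2
  · exact t h1 h2
  · exact t h1 (s h2)
  · exact t (s h1) h2
  · exact t h1 h2
  · exact t h1 (s h2)
  · exact t (s h1) h2
  · exact t h1 h2
  · exact t h1 (s h2)
  · exact t (s h1) h2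
  · exact t h1 h2
  · exact t h1 (s h2)

theorem F_T (h : Hyp T C) (π : Setoid (Fin 4)) : F C π ≤ T := by
  have := F_le (C := C) (π := π) (i := 0) (j := 0) (π.refl' 0)
  rwa [h.diag] at this

/-- the meet of `T` and the `C i j` for the pairs that are in the code -/
def G (T : M) (C : Fin 4 → Fin 4 → M) (a b c d e f : Bool) : M :=
  T ⊓ (bif a then C 0 1 else T) ⊓ (bif b then C 0 2 else T) ⊓ (bif c then C 0 3 else T) ⊓
    (bif d then C 1 2 else T) ⊓ (bif e then C 1 3 else T) ⊓ (bif f then C 2 3 else T)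

theorem bif_iff {x : Bool} {X Y T : M} (hXT : X ≤ T) :
    X ≤ (bif x then Y else T) ↔ (x = true → X ≤ Y) := by
  cases x <;> simp [hXT]

theorem le_G {X : M} {a b c d e f : Bool} (hXT : X ≤ T) :
    X ≤ G T C a b c d e f ↔ (a = true → X ≤ C 0 1) ∧ (b = true → X ≤ C 0 2) ∧
      (c = true → X ≤ C 0 3) ∧ (d = true → X ≤ C 1 2) ∧ (e = true → X ≤ C 1 3) ∧
      (f = true → X ≤ C 2 3) := by
  unfold G
  simp only [le_inf_iff, bif_iff hXT, hXT, true_and, and_assoc]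

theorem F_eq_G (h : Hyp T C) (π : Setoid (Fin 4)) :
    F C π = G T C (cd π 0 1) (cd π 0 2) (cd π 0 3) (cd π 1 2) (cd π 1 3) (cd π 2 3) := by
  apply le_antisymm
  · rw [le_G (F_T h π)]
    simp only [cd_iff]
    exact ⟨F_le, F_le, F_le, F_le, F_le, F_le⟩
  · have hT : G T C (cd π 0 1) (cd π 0 2) (cd π 0 3) (cd π 1 2) (cd π 1 3) (cd π 2 3) ≤ T := by
      unfold G
      exact inf_le_left.trans <| inf_le_left.trans <| inf_le_left.trans <| inf_le_left.trans <|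
        inf_le_left.trans inf_le_left
    have hG := (le_G (C := C) hT).1 le_rfl
    simp only [cd_iff] at hG
    obtain ⟨h1, h2, h3, h4, h5, h6⟩ := hG
    rw [le_F]
    intro i j hij
    have hji := π.symm' hij
    fin_cases i <;> fin_cases j <;>
      first
        | exact hT.trans (h.diag _).ge
        | exact h1 hij
        | exact h2 hij
        | exact h3 hij
        | exact h4 hij
        | exact h5 hij
        | exact h6 hij
        | exact (h1 hji).trans (h.symm _ _).le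
        | exact (h2 hji).trans (h.symm _ _).le
        | exact (h3 hji).trans (h.symm _ _).le
        | exact (h4 hji).trans (h.symm _ _).le
        | exact (h5 hji).trans (h.symm _ _).le
        | exact (h6 hji).trans (h.symm _ _).le

open Classical in
/-- `X` is above `Y` -/
noncomputable def ab (Y X : M) : Bool := decide (Y ≤ X)

open Classical in
theorem ab_iff {Y X : M} : ab Y X = true ↔ Y ≤ X := by
  unfold ab; exact decide_eq_true_iff

theorem step {X Y Z L : M} (h1 : L ≤ Y ⊔ Z) {W : M} (h2 : W ≤ L) (hY : Y ≤ X) (hZ : Z ≤ X) :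
    W ≤ X := h2.trans (h1.trans (sup_le hY hZ))

theorem ab_closed (h : Hyp T C) (hJ : HypJ T C) (X : M) :
    closed (ab (A0 C) X) (ab (A1 C) X) (ab (A2 C) X) (ab (A3 C) X) (ab (B0 C) X) (ab (B1 C) X)
      (ab (B2 C) X) = true := by
  unfold closed
  simp only [Bool.and_eq_true]
  have l01 : ∀ {W}, W ≤ C 0 1 → W ≤ T := fun h' => h'.trans (h.le _ _)
  have tA0 : A0 C ≤ T := (inf_le_right : A0 C ≤ _).trans (h.le _ _)
  have tA1 : A1 C ≤ T := (inf_le_right : A1 C ≤ _).trans (h.le _ _)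
  have tA2 : A2 C ≤ T := (inf_le_right : A2 C ≤ _).trans (h.le _ _)
  have tA3 : A3 C ≤ T := (inf_le_right : A3 C ≤ _).trans (h.le _ _)
  have tB0 : B0 C ≤ T := (inf_le_right : B0 C ≤ _).trans (h.le _ _)
  have tB1 : B1 C ≤ T := (inf_le_right : B1 C ≤ _).trans (h.le _ _)
  have tB2 : B2 C ≤ T := (inf_le_right : B2 C ≤ _).trans (h.le _ _)
  refine ⟨⟨⟨⟨⟨⟨⟨⟨⟨⟨⟨⟨⟨⟨⟨⟨⟨⟨⟨⟨?_, ?_⟩, ?_⟩, ?_⟩, ?_⟩, ?_⟩, ?_⟩, ?_⟩, ?_⟩, ?_⟩, ?_⟩, ?_⟩, ?_⟩,
    ?_⟩, ?_⟩, ?_⟩, ?_⟩, ?_⟩, ?_⟩, ?_⟩, ?_⟩ <;>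
    refine imp3 fun h1 h2 => ?_ <;> simp only [ab_iff, Bool.and_eq_true] at h1 h2 ⊢
  · exact step hJ.a1 inf_le_left h1 h2
  · exact step hJ.a2 (inf_le_left.trans inf_le_left) h1 h2
  · exact step hJ.a3 (inf_le_left.trans inf_le_left) h1 h2
  · exact step hJ.b1 inf_le_left h1 h2
  · exact step hJ.b2 (inf_le_left.trans inf_le_right) h1 h2
  · exact step hJ.b3 (inf_le_left.trans inf_le_left) h1 h2
  · exact step hJ.c1 inf_le_left h1 h2
  · exact step hJ.c2 (inf_le_left.trans inf_le_right) h1 h2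
  · exact step hJ.c3 (inf_le_left.trans inf_le_right) h1 h2
  · exact step hJ.d1 inf_le_right h1 h2
  · exact step hJ.d2 inf_le_right h1 h2
  · exact step hJ.d3 (inf_le_left.trans inf_le_left) h1 h2
  · exact step hJ.e1 inf_le_right h1 h2
  · exact step hJ.e2 inf_le_right h1 h2
  · exact step hJ.e3 (inf_le_left.trans inf_le_right) h1 h2
  · exact step hJ.f1 inf_le_right h1 h2
  · exact step hJ.f2 inf_le_right h1 h2
  · exact step hJ.f3 inf_le_right h1 h2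
  · exact ⟨⟨⟨⟨step hJ.t1 tA0 h1 h2, step hJ.t1 tA1 h1 h2⟩, step hJ.t1 tA2 h1 h2⟩,
      step hJ.t1 tA3 h1 h2⟩, step hJ.t1 tB2 h1 h2⟩
  · exact ⟨⟨⟨⟨step hJ.t2 tA0 h1 h2, step hJ.t2 tA1 h1 h2⟩, step hJ.t2 tA2 h1 h2⟩,
      step hJ.t2 tA3 h1 h2⟩, step hJ.t2 tB1 h1 h2⟩
  · exact ⟨⟨⟨⟨step hJ.t3 tA0 h1 h2, step hJ.t3 tA1 h1 h2⟩, step hJ.t3 tA2 h1 h2⟩,
      step hJ.t3 tA3 h1 h2⟩, step hJ.t3 tB0 h1 h2⟩

theorem or_intro {x y : Bool} (h : x = false → y = true) : (x || y) = true := by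
  cases x <;> simp_all

/-- all atoms below an element below `X` are below `X` -/
theorem sub_of_le (h : Hyp T C) {a b c d e f : Bool} {X : M} (hX : G T C a b c d e f ≤ X) :
    sub a b c d e f (ab (A0 C) X) (ab (A1 C) X) (ab (A2 C) X) (ab (A3 C) X) (ab (B0 C) X)
      (ab (B1 C) X) (ab (B2 C) X) = true := by
  have tA0 : A0 C ≤ T := (inf_le_right : A0 C ≤ _).trans (h.le _ _)
  have tA1 : A1 C ≤ T := (inf_le_right : A1 C ≤ _).trans (h.le _ _)
  have tA2 : A2 C ≤ T := (inf_le_right : A2 C ≤ _).trans (h.le _ _)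
  have tA3 : A3 C ≤ T := (inf_le_right : A3 C ≤ _).trans (h.le _ _)
  have tB0 : B0 C ≤ T := (inf_le_right : B0 C ≤ _).trans (h.le _ _)
  have tB1 : B1 C ≤ T := (inf_le_right : B1 C ≤ _).trans (h.le _ _)
  have tB2 : B2 C ≤ T := (inf_le_right : B2 C ≤ _).trans (h.le _ _)
  unfold sub
  simp only [Bool.and_eq_true]
  refine ⟨⟨⟨⟨⟨⟨?_, ?_⟩, ?_⟩, ?_⟩, ?_⟩, ?_⟩, ?_⟩ <;> refine or_intro fun h0 => ?_ <;>
    rw [ab_iff] <;> refine le_trans ?_ hX <;> simp only [Bool.or_eq_false_iff] at h0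
  · obtain ⟨⟨h1, h2⟩, h3⟩ := h0
    subst h1 h2 h3
    rw [le_G tA0]
    simp only [Bool.false_eq_true, false_imp_iff, true_and]
    exact ⟨fun _ => inf_le_left.trans inf_le_left, fun _ => inf_le_left.trans inf_le_right,
      fun _ => inf_le_right⟩
  · obtain ⟨⟨h1, h2⟩, h3⟩ := h0
    subst h1 h2 h3
    rw [le_G tA1]
    simp only [Bool.false_eq_true, false_imp_iff, true_and]
    exact ⟨fun _ => inf_le_left.trans inf_le_left, fun _ => inf_le_left.trans inf_le_right,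
      fun _ => inf_le_right⟩
  · obtain ⟨⟨h1, h2⟩, h3⟩ := h0
    subst h1 h2 h3
    rw [le_G tA2]
    simp only [Bool.false_eq_true, false_imp_iff, true_and, and_true]
    exact ⟨fun _ => inf_le_left.trans inf_le_left, fun _ => inf_le_left.trans inf_le_right,
      fun _ => inf_le_right⟩
  · obtain ⟨⟨h1, h2⟩, h3⟩ := h0
    subst h1 h2 h3
    rw [le_G tA3]
    simp only [Bool.false_eq_true, false_imp_iff, true_and, and_true]
    exact ⟨fun _ => inf_le_left.trans inf_le_left, fun _ => inf_le_left.trans inf_le_right,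
      fun _ => inf_le_right⟩
  · obtain ⟨⟨⟨h1, h2⟩, h3⟩, h4⟩ := h0
    subst h1 h2 h3 h4
    rw [le_G tB0]
    simp only [Bool.false_eq_true, false_imp_iff, true_and, and_true]
    exact ⟨fun _ => inf_le_left, fun _ => inf_le_right⟩
  · obtain ⟨⟨⟨h1, h2⟩, h3⟩, h4⟩ := h0
    subst h1 h2 h3 h4
    rw [le_G tB1]
    simp only [Bool.false_eq_true, false_imp_iff, true_and, and_true]
    exact ⟨fun _ => inf_le_left, fun _ => inf_le_right⟩
  · obtain ⟨⟨⟨h1, h2⟩, h3⟩, h4⟩ := h0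
    subst h1 h2 h3 h4
    rw [le_G tB2]
    simp only [Bool.false_eq_true, false_imp_iff, true_and, and_true]
    exact ⟨fun _ => inf_le_left, fun _ => inf_le_right⟩

/-- an element of the lattice is the join of the atoms below it -/
theorem le_of_sub (h : Hyp T C) (hJ : HypJ T C) {X : M} (hO : G T C true true true true true true ≤ X) :
    ∀ a b c d e f : Bool, valid a b c d e f = true →
    sub a b c d e f (ab (A0 C) X) (ab (A1 C) X) (ab (A2 C) X) (ab (A3 C) X) (ab (B0 C) X)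
      (ab (B1 C) X) (ab (B2 C) X) = true → G T C a b c d e f ≤ X := by
  have key : ∀ {a b c d e f : Bool}, (G T C a b c d e f ≤ T) ∧ (a = true → G T C a b c d e f ≤ C 0 1) ∧
      (b = true → G T C a b c d e f ≤ C 0 2) ∧
      (c = true → G T C a b c d e f ≤ C 0 3) ∧ (d = true → G T C a b c d e f ≤ C 1 2) ∧
      (e = true → G T C a b c d e f ≤ C 1 3) ∧ (f = true → G T C a b c d e f ≤ C 2 3) := by
    intro a b c d e f
    have hT : G T C a b c d e f ≤ T := by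
      unfold G
      exact inf_le_left.trans <| inf_le_left.trans <| inf_le_left.trans <| inf_le_left.trans <|
        inf_le_left.trans inf_le_left
    exact ⟨hT, (le_G (C := C) hT).1 le_rfl⟩
  intro a b c d e f hv hs
  obtain ⟨k0, k1, k2, k3, k4, k5, k6⟩ := @key a b c d e f
  cases a <;> cases b <;> cases c <;> cases d <;> cases e <;> cases f <;>
    simp only [valid, sub, Bool.and_self, Bool.and_true, Bool.and_false, Bool.or_true, Bool.true_or,
      Bool.or_false, Bool.false_or, Bool.not_true, Bool.not_false, Bool.true_and, Bool.false_and,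
      Bool.false_eq_true, false_imp_iff, true_imp_iff, Bool.and_eq_true, ab_iff, true_and, and_true]
      at hv hs k1 k2 k3 k4 k5 k6 <;>
    first
      | exact hO
      | exact k0.trans (hJ.t1.trans (sup_le hs.1.1.2 hs.1.2))
      | exact k1.trans (hJ.a1.trans (sup_le hs.1.1 hs.1.2))
      | exact k2.trans (hJ.b1.trans (sup_le hs.1.1 hs.1.2))
      | exact k3.trans (hJ.c1.trans (sup_le hs.1.1 hs.1.2))
      | exact k4.trans (hJ.d1.trans (sup_le hs.1.1 hs.1.2))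
      | exact k5.trans (hJ.e1.trans (sup_le hs.1.1 hs.1.2))
      | exact k6.trans (hJ.f1.trans (sup_le hs.1.1 hs.1.2))
      | exact (le_inf (le_inf k4 k5) k6).trans hs
      | exact (le_inf (le_inf k2 k3) k6).trans hs
      | exact (le_inf (le_inf k1 k3) k5).trans hs
      | exact (le_inf (le_inf k1 k2) k4).trans hs
      | exact (le_inf k1 k6).trans hs
      | exact (le_inf k2 k5).trans hs
      | exact (le_inf k3 k4).trans hs

theorem G_top_le {a b c d e f : Bool} :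
    G T C true true true true true true ≤ G T C a b c d e f := by
  have hT : G T C true true true true true true ≤ T := by
      unfold G
      exact inf_le_left.trans <| inf_le_left.trans <| inf_le_left.trans <| inf_le_left.trans <|
        inf_le_left.trans inf_le_left
  have hG := (le_G (C := C) hT).1 le_rfl
  obtain ⟨h1, h2, h3, h4, h5, h6⟩ := hG
  rw [le_G hT]
  exact ⟨fun _ => h1 rfl, fun _ => h2 rfl, fun _ => h3 rfl, fun _ => h4 rfl, fun _ => h5 rfl,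
    fun _ => h6 rfl⟩

theorem F_inf (h : Hyp T C) (hJ : HypJ T C) (π σ : Setoid (Fin 4)) :
    F C (π ⊓ σ) = F C π ⊔ F C σ := by
  apply le_antisymm _ (sup_le (F_anti inf_le_left) (F_anti inf_le_right))
  have h1 := sub_of_le h (X := F C π ⊔ F C σ) ((F_eq_G h π).ge.trans le_sup_left)
  have h2 := sub_of_le h (X := F C π ⊔ F C σ) ((F_eq_G h σ).ge.trans le_sup_right)
  have h3 := chk _ _ _ _ _ _ (cd_valid π) _ _ _ _ _ _ (cd_valid σ) _ _ _ _ _ _ _
    (ab_closed h hJ (F C π ⊔ F C σ)) h1 h2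
  have hO : G T C true true true true true true ≤ F C π ⊔ F C σ :=
    (G_top_le.trans (F_eq_G h π).ge).trans le_sup_left
  have h4 := cd_valid (π ⊓ σ)
  rw [F_eq_G h (π ⊓ σ)]
  refine le_of_sub h hJ hO _ _ _ _ _ _ h4 ?_
  simp only [cd_inf]
  exact h3

end Pool.Agent.U291.Whit
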