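import Pool.Agent.U291.Whit.Main

/-!
# The joins
-/

set_option autoImplicit false

namespace Pool.Agent.U291.Whit

/-- product of a word in two letters -/
def wd (x y : P) (l : List Bool) : P := (l.map fun b => bif b then y else x).prod

theorem wd_mem {x y : P} {H : Subgroup P} (hx : x ∈ H) (hy : y ∈ H) (l : List Bool) :
    wd x y l ∈ H := by
  unfold wd
  apply H.list_prod_mem
  intro z hz
  rw [List.mem_map] at hz
  obtain ⟨b, -, rfl⟩ := hz
  cases b
  · exact hx
  · exact hy

theorem be0_01 : wd al0 al1 [false, false, false, false, true, true, true] = be0 := by decide +kernel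
theorem al1_0_b0 : wd al0 be0 [false, true, false, true] = al1 := by decide +kernel
theorem al0_1_b0 : wd al1 be0 [false, true, false, true] = al0 := by decide +kernel
theorem be0_23 : wd al2 al3 [false, true, true, true] = be0 := by decide +kernel
theorem al3_2_b0 : wd al2 be0 [true, false, false] = al3 := by decide +kernel
theorem al2_3_b0 : wd al3 be0 [true, false, false] = al2 := by decide +kernel
theorem be1_02 : wd al0 al2 [true, false] = be1 := by decide +kernel
theorem al2_0_b1 : wd al0 be1 [false, false, true, true, false] = al2 := by decide +kernel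
theorem al0_2_b1 : wd al2 be1 [false, false, false, false, true] = al0 := by decide +kernel
theorem be1_13 : wd al1 al3 [true, false, true, false] = be1 := by decide +kernel
theorem al3_1_b1 : wd al1 be1 [false, false, true, false] = al3 := by decide +kernel
theorem al1_3_b1 : wd al3 be1 [false, true, false, false] = al1 := by decide +kernel
theorem be2_03 : wd al0 al3 [false, false, false, true, true] = be2 := by decide +kernel
theorem al3_0_b2 : wd al0 be2 [false, false, true, true, false] = al3 := by decide +kernel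
theorem al0_3_b2 : wd al3 be2 [false, false, false, false, true, true, false, false] = al0 := by decide +kernel
theorem be2_12 : wd al1 al2 [false, true] = be2 := by decide +kernel
theorem al2_1_b2 : wd al1 be2 [false, false, false, false, true] = al2 := by decide +kernel
theorem al1_2_b2 : wd al2 be2 [true, false, false, false, false] = al1 := by decide +kernel
theorem al0_b01 : wd be0 be1 [true, false, true, false, true, true, false, false] = al0 := by decide +kernel
theorem al1_b01 : wd be0 be1 [true, true, false, true, true, false, true, false, false] = al1 := by decide +kernel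
theorem al2_b01 : wd be0 be1 [false, false, true, true, false, true, false, true, false] = al2 := by decide +kernel
theorem al3_b01 : wd be0 be1 [false, false, true, false, true, true, false, true, true, false] = al3 := by decide +kernel
theorem al0_b02 : wd be0 be2 [false, false, true, true, false, true, true, false, true] = al0 := by decide +kernel
theorem al1_b02 : wd be0 be2 [true, false, false, false, true, false, true, true, true] = al1 := by decide +kernel
theorem al2_b02 : wd be0 be2 [false, true, true, true, false, true, false, false, false, true] = al2 := by decide +kernel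
theorem al3_b02 : wd be0 be2 [true, false, false, false, true, true, false, true, false] = al3 := by decide +kernel
theorem al0_b12 : wd be1 be2 [false, false, true, true, true, false, true, false, true, false, false] = al0 := by decide +kernel
theorem al1_b12 : wd be1 be2 [false, true, true, false, true, false, true] = al1 := by decide +kernel
theorem al2_b12 : wd be1 be2 [false, true, false, true, false, true, true, false] = al2 := by decide +kernel
theorem al3_b12 : wd be1 be2 [false, true, false, true, false, true, true, true, false, false] = al3 := by decide +kernel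

theorem alA0 : al0 ∈ A0 C :=
  Subgroup.mem_inf.2 ⟨Subgroup.mem_inf.2 ⟨al_mem (k := 0) (by decide) (by decide),
    al_mem (k := 0) (by decide) (by decide)⟩, al_mem (k := 0) (by decide) (by decide)⟩
theorem alA1 : al1 ∈ A1 C :=
  Subgroup.mem_inf.2 ⟨Subgroup.mem_inf.2 ⟨al_mem (k := 1) (by decide) (by decide),
    al_mem (k := 1) (by decide) (by decide)⟩, al_mem (k := 1) (by decide) (by decide)⟩
theorem alA2 : al2 ∈ A2 C :=
  Subgroup.mem_inf.2 ⟨Subgroup.mem_inf.2 ⟨al_mem (k := 2) (by decide) (by decide),
    al_mem (k := 2) (by decide) (by decide)⟩, al_mem (k := 2) (by decide) (by decide)⟩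
theorem alA3 : al3 ∈ A3 C :=
  Subgroup.mem_inf.2 ⟨Subgroup.mem_inf.2 ⟨al_mem (k := 3) (by decide) (by decide),
    al_mem (k := 3) (by decide) (by decide)⟩, al_mem (k := 3) (by decide) (by decide)⟩

theorem beB0 : be0 ∈ B0 C := by
  refine Subgroup.mem_inf.2 ⟨?_, ?_⟩
  · rw [← be0_23]
    exact wd_mem (al_mem (k := 2) (by decide) (by decide)) (al_mem (k := 3) (by decide) (by decide)) _
  · rw [← be0_01]
    exact wd_mem (al_mem (k := 0) (by decide) (by decide)) (al_mem (k := 1) (by decide) (by decide)) _

theorem beB1 : be1 ∈ B1 C := by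
  refine Subgroup.mem_inf.2 ⟨?_, ?_⟩
  · rw [← be1_13]
    exact wd_mem (al_mem (k := 1) (by decide) (by decide)) (al_mem (k := 3) (by decide) (by decide)) _
  · rw [← be1_02]
    exact wd_mem (al_mem (k := 0) (by decide) (by decide)) (al_mem (k := 2) (by decide) (by decide)) _

theorem beB2 : be2 ∈ B2 C := by
  refine Subgroup.mem_inf.2 ⟨?_, ?_⟩
  · rw [← be2_12]
    exact wd_mem (al_mem (k := 1) (by decide) (by decide)) (al_mem (k := 2) (by decide) (by decide)) _
  · rw [← be2_03]
    exact wd_mem (al_mem (k := 0) (by decide) (by decide)) (al_mem (k := 3) (by decide) (by decide)) _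

theorem sup_l {H K : Subgroup P} {x : P} (h : x ∈ H) : x ∈ H ⊔ K :=
  (le_sup_left : H ≤ H ⊔ K) h
theorem sup_r {H K : Subgroup P} {x : P} (h : x ∈ K) : x ∈ H ⊔ K :=
  (le_sup_right : K ≤ H ⊔ K) h

theorem le01 {H : Subgroup P} (h1 : al2 ∈ H) (h2 : al3 ∈ H) : C 0 1 ≤ H :=
  C_le_of (by decide) fun k hk1 hk2 => by
    fin_cases k <;> first | exact h1 | exact h2 | exact absurd rfl hk1 | exact absurd rfl hk2

theorem le02 {H : Subgroup P} (h1 : al1 ∈ H) (h2 : al3 ∈ H) : C 0 2 ≤ H :=
  C_le_of (by decide) fun k hk1 hk2 => by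
    fin_cases k <;> first | exact h1 | exact h2 | exact absurd rfl hk1 | exact absurd rfl hk2

theorem le03 {H : Subgroup P} (h1 : al1 ∈ H) (h2 : al2 ∈ H) : C 0 3 ≤ H :=
  C_le_of (by decide) fun k hk1 hk2 => by
    fin_cases k <;> first | exact h1 | exact h2 | exact absurd rfl hk1 | exact absurd rfl hk2

theorem le12 {H : Subgroup P} (h1 : al0 ∈ H) (h2 : al3 ∈ H) : C 1 2 ≤ H :=
  C_le_of (by decide) fun k hk1 hk2 => by
    fin_cases k <;> first | exact h1 | exact h2 | exact absurd rfl hk1 | exact absurd rfl hk2

theorem le13 {H : Subgroup P} (h1 : al0 ∈ H) (h2 : al2 ∈ H) : C 1 3 ≤ H :=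
  C_le_of (by decide) fun k hk1 hk2 => by
    fin_cases k <;> first | exact h1 | exact h2 | exact absurd rfl hk1 | exact absurd rfl hk2

theorem le23 {H : Subgroup P} (h1 : al0 ∈ H) (h2 : al1 ∈ H) : C 2 3 ≤ H :=
  C_le_of (by decide) fun k hk1 hk2 => by
    fin_cases k <;> first | exact h1 | exact h2 | exact absurd rfl hk1 | exact absurd rfl hk2

theorem leT {H : Subgroup P} (h0 : al0 ∈ H) (h1 : al1 ∈ H) (h2 : al2 ∈ H) (h3 : al3 ∈ H) : T ≤ H :=
  T_le_of fun k => by fin_cases k <;> first | exact h0 | exact h1 | exact h2 | exact h3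

theorem hypJ : HypJ T C where
  a1 := le01 (sup_l alA2) (sup_r alA3)
  a2 := le01 (sup_l alA2) (by rw [← al3_2_b0]; exact wd_mem (sup_l alA2) (sup_r beB0) _)
  a3 := le01 (by rw [← al2_3_b0]; exact wd_mem (sup_l alA3) (sup_r beB0) _) (sup_l alA3)
  b1 := le02 (sup_l alA1) (sup_r alA3)
  b2 := le02 (sup_l alA1) (by rw [← al3_1_b1]; exact wd_mem (sup_l alA1) (sup_r beB1) _)
  b3 := le02 (by rw [← al1_3_b1]; exact wd_mem (sup_l alA3) (sup_r beB1) _) (sup_l alA3)
  c1 := le03 (sup_l alA1) (sup_r alA2)
  c2 := le03 (sup_l alA1) (by rw [← al2_1_b2]; exact wd_mem (sup_l alA1) (sup_r beB2) _)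
  c3 := le03 (by rw [← al1_2_b2]; exact wd_mem (sup_l alA2) (sup_r beB2) _) (sup_l alA2)
  d1 := le12 (sup_l alA0) (sup_r alA3)
  d2 := le12 (sup_l alA0) (by rw [← al3_0_b2]; exact wd_mem (sup_l alA0) (sup_r beB2) _)
  d3 := le12 (by rw [← al0_3_b2]; exact wd_mem (sup_l alA3) (sup_r beB2) _) (sup_l alA3)
  e1 := le13 (sup_l alA0) (sup_r alA2)
  e2 := le13 (sup_l alA0) (by rw [← al2_0_b1]; exact wd_mem (sup_l alA0) (sup_r beB1) _)
  e3 := le13 (by rw [← al0_2_b1]; exact wd_mem (sup_l alA2) (sup_r beB1) _) (sup_l alA2)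
  f1 := le23 (sup_l alA0) (sup_r alA1)
  f2 := le23 (sup_l alA0) (by rw [← al1_0_b0]; exact wd_mem (sup_l alA0) (sup_r beB0) _)
  f3 := le23 (by rw [← al0_1_b0]; exact wd_mem (sup_l alA1) (sup_r beB0) _) (sup_l alA1)
  t1 := leT (by rw [← al0_b01]; exact wd_mem (sup_l beB0) (sup_r beB1) _) (by rw [← al1_b01]; exact wd_mem (sup_l beB0) (sup_r beB1) _) (by rw [← al2_b01]; exact wd_mem (sup_l beB0) (sup_r beB1) _) (by rw [← al3_b01]; exact wd_mem (sup_l beB0) (sup_r beB1) _)
  t2 := leT (by rw [← al0_b02]; exact wd_mem (sup_l beB0) (sup_r beB2) _) (by rw [← al1_b02]; exact wd_mem (sup_l beB0) (sup_r beB2) _) (by rw [← al2_b02]; exact wd_mem (sup_l beB0) (sup_r beB2) _) (by rw [← al3_b02]; exact wd_mem (sup_l beB0) (sup_r beB2) _)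
  t3 := leT (by rw [← al0_b12]; exact wd_mem (sup_l beB1) (sup_r beB2) _) (by rw [← al1_b12]; exact wd_mem (sup_l beB1) (sup_r beB2) _) (by rw [← al2_b12]; exact wd_mem (sup_l beB1) (sup_r beB2) _) (by rw [← al3_b12]; exact wd_mem (sup_l beB1) (sup_r beB2) _)

theorem not_le {H K : Subgroup P} {x : P} {E : List (List ℕ)} (hx : x ∈ H)
    (hE : ∀ {y : P}, y ∈ K → enc y ∈ E) (h : E.contains (enc x) = false) : ¬ H ≤ K := by
  intro hle
  have := List.contains_iff_mem.2 (hE (hle hx))
  rw [h] at this
  exact Bool.false_ne_true this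

theorem hypN : HypN C where
  a := ⟨not_le alA0 m01 (by decide +kernel), not_le alA1 m01 (by decide +kernel), not_le beB1 m01 (by decide +kernel), not_le beB2 m01 (by decide +kernel)⟩
  b := ⟨not_le alA0 m02 (by decide +kernel), not_le alA2 m02 (by decide +kernel), not_le beB0 m02 (by decide +kernel), not_le beB2 m02 (by decide +kernel)⟩
  c := ⟨not_le alA0 m03 (by decide +kernel), not_le alA3 m03 (by decide +kernel), not_le beB0 m03 (by decide +kernel), not_le beB1 m03 (by decide +kernel)⟩
  d := ⟨not_le alA1 m12 (by decide +kernel), not_le alA2 m12 (by decide +kernel), not_le beB0 m12 (by decide +kernel), not_le beB1 m12 (by decide +kernel)⟩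
  e := ⟨not_le alA1 m13 (by decide +kernel), not_le alA3 m13 (by decide +kernel), not_le beB0 m13 (by decide +kernel), not_le beB2 m13 (by decide +kernel)⟩
  f := ⟨not_le alA2 m23 (by decide +kernel), not_le alA3 m23 (by decide +kernel), not_le beB1 m23 (by decide +kernel), not_le beB2 m23 (by decide +kernel)⟩

end Pool.Agent.U291.Whit
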