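import Pool.Agent.U291.Whit.Data

/-!
# The dual of the partition lattice of four points in the subgroup lattice of `PSL(2, 11)`
-/

set_option autoImplicit false
set_option linter.unreachableTactic false
set_option linter.unusedTactic false

namespace Pool.Agent.U291.Whit

/-- the four elements of order five -/
def al : Fin 4 → P := ![al0, al1, al2, al3]

/-- the group generated by them -/
def T : Subgroup P := Subgroup.closure (Set.range al)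

/-- the six subgroups; `C i j` is generated by the two elements with the other indices -/
def C (i j : Fin 4) : Subgroup P :=
  if i = j then T else Subgroup.closure {x | ∃ k, k ≠ i ∧ k ≠ j ∧ x = al k}

theorem C_symm (i j : Fin 4) : C i j = C j i := by
  unfold C
  rcases eq_or_ne i j with h | h
  · subst h; rfl
  · rw [if_neg h, if_neg (Ne.symm h)]
    congr 1
    ext x
    constructor <;> rintro ⟨k, h1, h2, h3⟩ <;> exact ⟨k, h2, h1, h3⟩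

theorem C_diag (i : Fin 4) : C i i = T := if_pos rfl

theorem C_le (i j : Fin 4) : C i j ≤ T := by
  unfold C
  split_ifs with h
  · exact le_rfl
  · apply Subgroup.closure_mono
    rintro x ⟨k, -, -, rfl⟩
    exact Set.mem_range_self k

theorem al_mem {i j k : Fin 4} (h1 : k ≠ i) (h2 : k ≠ j) : al k ∈ C i j := by
  unfold C
  split_ifs with h
  · exact Subgroup.subset_closure (Set.mem_range_self k)
  · exact Subgroup.subset_closure ⟨k, h1, h2, rfl⟩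

theorem C_le_of {i j : Fin 4} (hij : i ≠ j) {H : Subgroup P}
    (h : ∀ k, k ≠ i → k ≠ j → al k ∈ H) : C i j ≤ H := by
  unfold C
  rw [if_neg hij, Subgroup.closure_le]
  rintro x ⟨k, h1, h2, rfl⟩
  exact h k h1 h2

theorem T_le_of {H : Subgroup P} (h : ∀ k, al k ∈ H) : T ≤ H := by
  unfold T
  rw [Subgroup.closure_le]
  rintro x ⟨k, rfl⟩
  exact h k

theorem C_list {i j : Fin 4} (hij : i ≠ j) {E : List (List ℕ)} (h1 : E.contains (enc 1) = true)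
    (h : ∀ k, k ≠ i → k ≠ j → clo E (enc (al k)) = true ∧ clo E (enc (al k)⁻¹) = true) {x : P}
    (hx : x ∈ C i j) : enc x ∈ E := by
  unfold C at hx
  rw [if_neg hij] at hx
  refine mem_list (List.contains_iff_mem.1 h1) ?_ hx
  rintro s ⟨k, k1, k2, rfl⟩
  exact h k k1 k2

theorem m01 {x : P} (hx : x ∈ C 0 1) : enc x ∈ E01 :=
  C_list (by decide) (by decide +kernel) (by decide +kernel) hx

theorem m02 {x : P} (hx : x ∈ C 0 2) : enc x ∈ E02 :=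
  C_list (by decide) (by decide +kernel) (by decide +kernel) hx

theorem m03 {x : P} (hx : x ∈ C 0 3) : enc x ∈ E03 :=
  C_list (by decide) (by decide +kernel) (by decide +kernel) hx

theorem m12 {x : P} (hx : x ∈ C 1 2) : enc x ∈ E12 :=
  C_list (by decide) (by decide +kernel) (by decide +kernel) hx

theorem m13 {x : P} (hx : x ∈ C 1 3) : enc x ∈ E13 :=
  C_list (by decide) (by decide +kernel) (by decide +kernel) hx

theorem m23 {x : P} (hx : x ∈ C 2 3) : enc x ∈ E23 :=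
  C_list (by decide) (by decide +kernel) (by decide +kernel) hx

/-- elements that are in both lists are in the third one -/
def both (E E' W : List (List ℕ)) : Bool := E.all fun l => !(E'.contains l) || W.contains l

theorem both_mem {E E' W : List (List ℕ)} (h : both E E' W = true) {l : List ℕ} (h1 : l ∈ E)
    (h2 : l ∈ E') : l ∈ W := by
  unfold both at h
  rw [List.all_eq_true] at h
  have := h l h1
  rw [List.contains_iff_mem.2 h2] at this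
  simpa using this

theorem W0_pow : W0 = [enc (al 0 ^ 0), enc (al 0 ^ 1), enc (al 0 ^ 2), enc (al 0 ^ 3), enc (al 0 ^ 4)] := by
  decide +kernel
theorem W1_pow : W1 = [enc (al 1 ^ 0), enc (al 1 ^ 1), enc (al 1 ^ 2), enc (al 1 ^ 3), enc (al 1 ^ 4)] := by
  decide +kernel
theorem W2_pow : W2 = [enc (al 2 ^ 0), enc (al 2 ^ 1), enc (al 2 ^ 2), enc (al 2 ^ 3), enc (al 2 ^ 4)] := by
  decide +kernel
theorem W3_pow : W3 = [enc (al 3 ^ 0), enc (al 3 ^ 1), enc (al 3 ^ 2), enc (al 3 ^ 3), enc (al 3 ^ 4)] := by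
  decide +kernel

theorem pow_mem {k : Fin 4} {x : P}
    (hx : enc x ∈ [enc (al k ^ 0), enc (al k ^ 1), enc (al k ^ 2), enc (al k ^ 3), enc (al k ^ 4)])
    {H : Subgroup P} (hH : al k ∈ H) : x ∈ H := by
  simp only [List.mem_cons, List.not_mem_nil, or_false] at hx
  rcases hx with h | h | h | h | h <;> rw [enc_inj h] <;> exact H.pow_mem hH _

theorem mC : ∀ i j : Fin 4, i ≠ j → ∀ x ∈ C i j, (i = 0 ∧ j = 1 ∨ i = 1 ∧ j = 0 → enc x ∈ E01) ∧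
    (i = 0 ∧ j = 2 ∨ i = 2 ∧ j = 0 → enc x ∈ E02) ∧ (i = 0 ∧ j = 3 ∨ i = 3 ∧ j = 0 → enc x ∈ E03) ∧
    (i = 1 ∧ j = 2 ∨ i = 2 ∧ j = 1 → enc x ∈ E12) ∧ (i = 1 ∧ j = 3 ∨ i = 3 ∧ j = 1 → enc x ∈ E13) ∧
    (i = 2 ∧ j = 3 ∨ i = 3 ∧ j = 2 → enc x ∈ E23) := by
  intro i j _ x hx
  refine ⟨?_, ?_, ?_, ?_, ?_, ?_⟩ <;> rintro (⟨rfl, rfl⟩ | ⟨rfl, rfl⟩)
  · exact m01 hx
  · rw [C_symm] at hx; exact m01 hx
  · exact m02 hx
  · rw [C_symm] at hx; exact m02 hx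
  · exact m03 hx
  · rw [C_symm] at hx; exact m03 hx
  · exact m12 hx
  · rw [C_symm] at hx; exact m12 hx
  · exact m13 hx
  · rw [C_symm] at hx; exact m13 hx
  · exact m23 hx
  · rw [C_symm] at hx; exact m23 hx

theorem b0 : both E12 E13 W0 = true ∧ both E12 E23 W0 = true ∧ both E13 E23 W0 = true := by
  decide +kernel
theorem b1 : both E02 E03 W1 = true ∧ both E02 E23 W1 = true ∧ both E03 E23 W1 = true := by
  decide +kernel
theorem b2 : both E01 E03 W2 = true ∧ both E01 E13 W2 = true ∧ both E03 E13 W2 = true := by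
  decide +kernel
theorem b3 : both E01 E02 W3 = true ∧ both E01 E12 W3 = true ∧ both E02 E12 W3 = true := by
  decide +kernel

/-- the intersections -/
theorem i0 {x : P} (h : (x ∈ C 1 2 ∧ x ∈ C 1 3) ∨ (x ∈ C 1 2 ∧ x ∈ C 2 3) ∨ (x ∈ C 1 3 ∧ x ∈ C 2 3))
    {H : Subgroup P} (hH : al 0 ∈ H) : x ∈ H := by
  refine pow_mem (k := 0) ?_ hH
  rw [← W0_pow]
  rcases h with ⟨h1, h2⟩ | ⟨h1, h2⟩ | ⟨h1, h2⟩
  · exact both_mem b0.1 (m12 h1) (m13 h2)
  · exact both_mem b0.2.1 (m12 h1) (m23 h2)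
  · exact both_mem b0.2.2 (m13 h1) (m23 h2)

theorem i1 {x : P} (h : (x ∈ C 0 2 ∧ x ∈ C 0 3) ∨ (x ∈ C 0 2 ∧ x ∈ C 2 3) ∨ (x ∈ C 0 3 ∧ x ∈ C 2 3))
    {H : Subgroup P} (hH : al 1 ∈ H) : x ∈ H := by
  refine pow_mem (k := 1) ?_ hH
  rw [← W1_pow]
  rcases h with ⟨h1, h2⟩ | ⟨h1, h2⟩ | ⟨h1, h2⟩
  · exact both_mem b1.1 (m02 h1) (m03 h2)
  · exact both_mem b1.2.1 (m02 h1) (m23 h2)
  · exact both_mem b1.2.2 (m03 h1) (m23 h2)

theorem i2 {x : P} (h : (x ∈ C 0 1 ∧ x ∈ C 0 3) ∨ (x ∈ C 0 1 ∧ x ∈ C 1 3) ∨ (x ∈ C 0 3 ∧ x ∈ C 1 3))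
    {H : Subgroup P} (hH : al 2 ∈ H) : x ∈ H := by
  refine pow_mem (k := 2) ?_ hH
  rw [← W2_pow]
  rcases h with ⟨h1, h2⟩ | ⟨h1, h2⟩ | ⟨h1, h2⟩
  · exact both_mem b2.1 (m01 h1) (m03 h2)
  · exact both_mem b2.2.1 (m01 h1) (m13 h2)
  · exact both_mem b2.2.2 (m03 h1) (m13 h2)

theorem i3 {x : P} (h : (x ∈ C 0 1 ∧ x ∈ C 0 2) ∨ (x ∈ C 0 1 ∧ x ∈ C 1 2) ∨ (x ∈ C 0 2 ∧ x ∈ C 1 2))
    {H : Subgroup P} (hH : al 3 ∈ H) : x ∈ H := by
  refine pow_mem (k := 3) ?_ hH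
  rw [← W3_pow]
  rcases h with ⟨h1, h2⟩ | ⟨h1, h2⟩ | ⟨h1, h2⟩
  · exact both_mem b3.1 (m01 h1) (m02 h2)
  · exact both_mem b3.2.1 (m01 h1) (m12 h2)
  · exact both_mem b3.2.2 (m02 h1) (m12 h2)

theorem tri (i j k : Fin 4) : C i j ⊓ C j k ≤ C i k := by
  intro x hx
  obtain ⟨h1, h2⟩ := Subgroup.mem_inf.1 hx
  have s : ∀ {i j}, x ∈ C i j → x ∈ C j i := fun {i j} h => by rwa [C_symm]
  rcases eq_or_ne i j with hij | hij
  · subst hij; exact h2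
  rcases eq_or_ne j k with hjk | hjk
  · subst hjk; exact h1
  rcases eq_or_ne i k with hik | hik
  · subst hik; rw [C_diag]; exact C_le _ _ h1
  have s1 := s h1
  have s2 := s h2
  fin_cases i <;> fin_cases j <;> fin_cases k <;>
    first
      | exact absurd rfl hij
      | exact absurd rfl hjk
      | exact absurd rfl hik
      | exact i0 (by first
          | exact Or.inl ⟨h1, h2⟩ | exact Or.inl ⟨h2, h1⟩ | exact Or.inl ⟨s1, h2⟩
          | exact Or.inl ⟨h1, s2⟩ | exact Or.inl ⟨s1, s2⟩ | exact Or.inl ⟨s2, h1⟩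
          | exact Or.inl ⟨h2, s1⟩ | exact Or.inl ⟨s2, s1⟩
          | exact Or.inr (Or.inl ⟨h1, h2⟩) | exact Or.inr (Or.inl ⟨h2, h1⟩)
          | exact Or.inr (Or.inl ⟨s1, h2⟩) | exact Or.inr (Or.inl ⟨h1, s2⟩)
          | exact Or.inr (Or.inl ⟨s1, s2⟩) | exact Or.inr (Or.inl ⟨s2, h1⟩)
          | exact Or.inr (Or.inl ⟨h2, s1⟩) | exact Or.inr (Or.inl ⟨s2, s1⟩)
          | exact Or.inr (Or.inr ⟨h1, h2⟩) | exact Or.inr (Or.inr ⟨h2, h1⟩)
          | exact Or.inr (Or.inr ⟨s1, h2⟩) | exact Or.inr (Or.inr ⟨h1, s2⟩)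
          | exact Or.inr (Or.inr ⟨s1, s2⟩) | exact Or.inr (Or.inr ⟨s2, h1⟩)
          | exact Or.inr (Or.inr ⟨h2, s1⟩) | exact Or.inr (Or.inr ⟨s2, s1⟩))
          (al_mem (by decide) (by decide))
      | exact i1 (by first
          | exact Or.inl ⟨h1, h2⟩ | exact Or.inl ⟨h2, h1⟩ | exact Or.inl ⟨s1, h2⟩
          | exact Or.inl ⟨h1, s2⟩ | exact Or.inl ⟨s1, s2⟩ | exact Or.inl ⟨s2, h1⟩
          | exact Or.inl ⟨h2, s1⟩ | exact Or.inl ⟨s2, s1⟩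
          | exact Or.inr (Or.inl ⟨h1, h2⟩) | exact Or.inr (Or.inl ⟨h2, h1⟩)
          | exact Or.inr (Or.inl ⟨s1, h2⟩) | exact Or.inr (Or.inl ⟨h1, s2⟩)
          | exact Or.inr (Or.inl ⟨s1, s2⟩) | exact Or.inr (Or.inl ⟨s2, h1⟩)
          | exact Or.inr (Or.inl ⟨h2, s1⟩) | exact Or.inr (Or.inl ⟨s2, s1⟩)
          | exact Or.inr (Or.inr ⟨h1, h2⟩) | exact Or.inr (Or.inr ⟨h2, h1⟩)
          | exact Or.inr (Or.inr ⟨s1, h2⟩) | exact Or.inr (Or.inr ⟨h1, s2⟩)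
          | exact Or.inr (Or.inr ⟨s1, s2⟩) | exact Or.inr (Or.inr ⟨s2, h1⟩)
          | exact Or.inr (Or.inr ⟨h2, s1⟩) | exact Or.inr (Or.inr ⟨s2, s1⟩))
          (al_mem (by decide) (by decide))
      | exact i2 (by first
          | exact Or.inl ⟨h1, h2⟩ | exact Or.inl ⟨h2, h1⟩ | exact Or.inl ⟨s1, h2⟩
          | exact Or.inl ⟨h1, s2⟩ | exact Or.inl ⟨s1, s2⟩ | exact Or.inl ⟨s2, h1⟩
          | exact Or.inl ⟨h2, s1⟩ | exact Or.inl ⟨s2, s1⟩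
          | exact Or.inr (Or.inl ⟨h1, h2⟩) | exact Or.inr (Or.inl ⟨h2, h1⟩)
          | exact Or.inr (Or.inl ⟨s1, h2⟩) | exact Or.inr (Or.inl ⟨h1, s2⟩)
          | exact Or.inr (Or.inl ⟨s1, s2⟩) | exact Or.inr (Or.inl ⟨s2, h1⟩)
          | exact Or.inr (Or.inl ⟨h2, s1⟩) | exact Or.inr (Or.inl ⟨s2, s1⟩)
          | exact Or.inr (Or.inr ⟨h1, h2⟩) | exact Or.inr (Or.inr ⟨h2, h1⟩)
          | exact Or.inr (Or.inr ⟨s1, h2⟩) | exact Or.inr (Or.inr ⟨h1, s2⟩)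
          | exact Or.inr (Or.inr ⟨s1, s2⟩) | exact Or.inr (Or.inr ⟨s2, h1⟩)
          | exact Or.inr (Or.inr ⟨h2, s1⟩) | exact Or.inr (Or.inr ⟨s2, s1⟩))
          (al_mem (by decide) (by decide))
      | exact i3 (by first
          | exact Or.inl ⟨h1, h2⟩ | exact Or.inl ⟨h2, h1⟩ | exact Or.inl ⟨s1, h2⟩
          | exact Or.inl ⟨h1, s2⟩ | exact Or.inl ⟨s1, s2⟩ | exact Or.inl ⟨s2, h1⟩
          | exact Or.inl ⟨h2, s1⟩ | exact Or.inl ⟨s2, s1⟩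
          | exact Or.inr (Or.inl ⟨h1, h2⟩) | exact Or.inr (Or.inl ⟨h2, h1⟩)
          | exact Or.inr (Or.inl ⟨s1, h2⟩) | exact Or.inr (Or.inl ⟨h1, s2⟩)
          | exact Or.inr (Or.inl ⟨s1, s2⟩) | exact Or.inr (Or.inl ⟨s2, h1⟩)
          | exact Or.inr (Or.inl ⟨h2, s1⟩) | exact Or.inr (Or.inl ⟨s2, s1⟩)
          | exact Or.inr (Or.inr ⟨h1, h2⟩) | exact Or.inr (Or.inr ⟨h2, h1⟩)
          | exact Or.inr (Or.inr ⟨s1, h2⟩) | exact Or.inr (Or.inr ⟨h1, s2⟩)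
          | exact Or.inr (Or.inr ⟨s1, s2⟩) | exact Or.inr (Or.inr ⟨s2, h1⟩)
          | exact Or.inr (Or.inr ⟨h2, s1⟩) | exact Or.inr (Or.inr ⟨s2, s1⟩))
          (al_mem (by decide) (by decide))

theorem hyp : Hyp T C := ⟨C_diag, C_symm, C_le, tri⟩

end Pool.Agent.U291.Whit
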